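import Pool.Agent.H500R3.Pol.Prb

/-! Probability of a bad cell. -/

set_option autoImplicit false

namespace Pool.Agent.H500R3.Pol
open Finset MeasureTheory ProbabilityTheory
open scoped ENNReal
open Pool.Agent.H500R3.Prod (Dep Pm Pm_indep)

variable {d : ℕ}

theorem Pm_cyl (μ : Measure (Fin 3)) [IsProbabilityMeasure μ] (S : Finset (V d))
    (t : V d → Set (Fin 3)) :
    (Pm (ι := V d) μ).real {ω | ∀ i ∈ S, ω i ∈ t i} = ∏ i ∈ S, μ.real (t i) := by
  have h1 : {ω : V d → Fin 3 | ∀ i ∈ S, ω i ∈ t i} = Set.pi (S : Set (V d)) t := by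
    ext ω
    rfl
  rw [h1, measureReal_def]
  unfold Pm
  rw [Measure.infinitePi_pi _ (fun i _ => (Set.toFinite (t i)).measurableSet), ENNReal.toReal_prod]
  rfl

theorem Pm_zero (μ : Measure (Fin 3)) [IsProbabilityMeasure μ] (S : Finset (V d)) :
    (Pm (ι := V d) μ).real {ω | ∀ i ∈ S, ω i = 0} = μ.real {0} ^ S.card := by
  have := Pm_cyl μ S (fun _ => {0})
  rw [Finset.prod_const] at this
  exact this

theorem Pm_not_one (μ : Measure (Fin 3)) [IsProbabilityMeasure μ] (S : Finset (V d)) :
    (Pm (ι := V d) μ).real {ω | ∀ i ∈ S, ω i ≠ 1} = (1 - μ.real {1}) ^ S.card := by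
  have := Pm_cyl μ S (fun _ => {1}ᶜ)
  rw [Finset.prod_const, probReal_compl_eq_one_sub (measurableSet_singleton _)] at this
  exact this

theorem Pm_pair (μ : Measure (Fin 3)) [IsProbabilityMeasure μ] (w u : V d) :
    (Pm (ι := V d) μ).real {ω | ω w = 1 ∧ ω u = 0} ≤ μ.real {1} * μ.real {0} := by
  classical
  by_cases hwu : u = w
  · have : {ω : V d → Fin 3 | ω w = 1 ∧ ω u = 0} = ∅ := by
      apply Set.eq_empty_of_forall_notMem
      rintro ω ⟨h1, h2⟩
      rw [hwu, h1] at h2
      exact absurd h2 (by decide)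
    rw [this, measureReal_empty]
    positivity
  · have h1 := Pm_cyl μ {w, u} (fun i => if i = w then ({1} : Set (Fin 3)) else {0})
    have h2 : {ω : V d → Fin 3 | ∀ i ∈ ({w, u} : Finset (V d)),
        ω i ∈ (if i = w then ({1} : Set (Fin 3)) else {0})} = {ω | ω w = 1 ∧ ω u = 0} := by
      ext ω
      constructor
      · intro h
        have a1 := h w (by simp)
        have a2 := h u (by simp)
        rw [if_pos rfl] at a1
        rw [if_neg hwu] at a2
        exact ⟨a1, a2⟩
      · rintro ⟨a1, a2⟩ i hi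
        rw [Finset.mem_insert, Finset.mem_singleton] at hi
        rcases hi with rfl | rfl
        · rw [if_pos rfl]; exact a1
        · rw [if_neg hwu]; exact a2
    rw [h2, Finset.prod_pair (Ne.symm hwu), if_pos rfl, if_neg hwu] at h1
    exact h1.le

/-- the tubes around the axes through `w` -/
noncomputable def tubeF (s : ℕ) (w : V d) : Finset (V d) :=
  Finset.univ.biUnion (fun i : Fin d =>
    (Finset.Icc (-(((3 * d + 1) * s : ℕ) : ℤ)) (((3 * d + 1) * s : ℕ) : ℤ)).biUnion
      (fun t => bxF (w + Pi.single i t) (2 * d + 1)))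

theorem card_tubeF (s : ℕ) (w : V d) :
    (tubeF s w).card ≤ d * ((2 * ((3 * d + 1) * s) + 1) * (4 * d + 3) ^ d) := by
  unfold tubeF
  refine le_trans (Finset.card_biUnion_le_card_mul _ _
    ((2 * ((3 * d + 1) * s) + 1) * (4 * d + 3) ^ d) ?_) ?_
  · intro i _
    refine le_trans (Finset.card_biUnion_le_card_mul _ _ ((4 * d + 3) ^ d) ?_) ?_
    · intro t _
      rw [card_bxF]
      apply le_of_eq
      congr 1
      ring
    · apply Nat.mul_le_mul_right
      rw [Int.card_Icc]
      omega
  · rw [Finset.card_univ, Fintype.card_fin]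

/-- the sites of a cell -/
noncomputable def cellF (s : ℕ) (c : V d) : Finset (V d) :=
  Fintype.piFinset (fun i => Finset.Ico ((s : ℤ) * c i) (s * c i + s))

theorem mem_cellF {s : ℕ} (hs : 1 ≤ s) {c x : V d} : x ∈ cellF s c ↔ pr (s : ℤ) x = c := by
  unfold cellF pr
  rw [Fintype.mem_piFinset]
  have h0 : (0 : ℤ) < s := by exact_mod_cast hs
  constructor
  · intro h
    funext i
    have h1 := Finset.mem_Ico.1 (h i)
    have h2 : x i / (s : ℤ) < c i + 1 := Int.ediv_lt_of_lt_mul h0 (by nlinarith [h1.2])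
    have h3 : c i ≤ x i / (s : ℤ) := Int.le_ediv_of_mul_le h0 (by nlinarith [h1.1])
    omega
  · intro h i
    have h1 : x i / s = c i := congrFun h i
    have a1 := Int.mul_ediv_add_emod (x i) s
    have a2 := Int.emod_nonneg (x i) h0.ne'
    have a3 := Int.emod_lt_of_pos (x i) h0
    rw [h1] at a1
    rw [Finset.mem_Ico]
    constructor <;> linarith

theorem card_cellF (s : ℕ) (c : V d) : (cellF s c).card = s ^ d := by
  unfold cellF
  rw [Fintype.card_piFinset]
  have : ∀ i ∈ (Finset.univ : Finset (Fin d)),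
      (Finset.Ico ((s : ℤ) * c i) (s * c i + s)).card = s := by
    intro i _
    rw [Int.card_Ico]
    omega
  rw [Finset.prod_congr rfl this, Finset.prod_const, Finset.card_univ, Fintype.card_fin]

theorem bad_prob (μ : Measure (Fin 3)) [IsProbabilityMeasure μ] {s m : ℕ} (hs : 1 ≤ s)
    (hm : m ≤ s ^ d) (c : V d) :
    (Pm μ).real (ev (s : ℤ) 0 c) ≤ (1 - μ.real {1}) ^ m +
      m * ((d * ((2 * ((3 * d + 1) * s) + 1) * (4 * d + 3) ^ d) : ℕ) * (μ.real {1} * μ.real {0})) +
      s ^ d * ((2 ^ ((4 * d + 3) ^ d) : ℕ) * μ.real {0} ^ d) := by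
  classical
  obtain ⟨W, hW1, hW2⟩ := Finset.exists_subset_card_eq (s := cellF s c) (n := m)
    (by rw [card_cellF]; exact hm)
  set P := Pm (ι := V d) μ with hP
  set E1 : Set (V d → Fin 3) := {ω | ∀ i ∈ W, ω i ≠ 1} with hE1
  set E2 : Set (V d → Fin 3) := ⋃ w ∈ W, ⋃ u ∈ tubeF s w, {ω | ω w = 1 ∧ ω u = 0} with hE2
  set E3 : Set (V d → Fin 3) := ⋃ x ∈ cellF s c, ⋃ S ∈ (bxF x (2 * d + 1)).powersetCard d,
    {ω | ∀ i ∈ S, ω i = 0} with hE3
  have hsub : ev (s : ℤ) 0 c ⊆ E1 ∪ E2 ∪ E3 := by
    intro ω hω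
    rcases hω with hω | ⟨x, hx, hx2⟩
    · left
      by_cases h1 : ω ∈ E1
      · exact Or.inl h1
      · right
        rw [hE1, Set.mem_ofPred_eq] at h1
        push Not at h1
        obtain ⟨w, hw, hw1⟩ := h1
        have hwc : pr (s : ℤ) w = c := (mem_cellF hs).1 (hW1 hw)
        have hwG : w ∉ GG (s : ℤ) ω := fun h => hω ⟨w, h, hwc⟩
        have h2 : ∃ i : Fin d, ∃ t : ℤ, |t| ≤ (3 * d + 1) * (s : ℤ) ∧
            ∃ u ∈ bx (w + Pi.single i t) (2 * d + 1), ω u = 0 := by
          by_contra hcon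
          push Not at hcon
          exact hwG ⟨hw1, fun i t ht u hu => hcon i t ht u hu⟩
        obtain ⟨i, t, ht, u, hu, hu0⟩ := h2
        rw [hE2, Set.mem_iUnion₂]
        refine ⟨w, hw, ?_⟩
        rw [Set.mem_iUnion₂]
        refine ⟨u, ?_, hw1, hu0⟩
        unfold tubeF
        rw [Finset.mem_biUnion]
        refine ⟨i, Finset.mem_univ i, ?_⟩
        rw [Finset.mem_biUnion]
        refine ⟨t, ?_, ?_⟩
        · rw [Finset.mem_Icc]
          have := abs_le.1 ht
          push_cast
          exact this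
        · rw [mem_bxF]
          push_cast
          exact hu
    · right
      rw [hE3, Set.mem_iUnion₂]
      refine ⟨x, (mem_cellF hs).2 hx, ?_⟩
      have h1 : (Occ ω ∩ bx x (2 * d + 1)) =
          (((bxF x (2 * d + 1)).filter (fun u => ω u = 0) : Finset (V d)) : Set (V d)) := by
        ext u
        rw [Finset.mem_coe, Finset.mem_filter, mem_bxF]
        push_cast
        constructor
        · rintro ⟨a1, a2⟩
          exact ⟨a2, a1⟩
        · rintro ⟨a1, a2⟩
          exact ⟨a2, a1⟩
      rw [h1, Set.ncard_coe_finset] at hx2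
      obtain ⟨S, hS1, hS2⟩ := Finset.exists_subset_card_eq hx2
      rw [Set.mem_iUnion₂]
      refine ⟨S, ?_, ?_⟩
      · rw [Finset.mem_powersetCard]
        exact ⟨hS1.trans (Finset.filter_subset _ _), hS2⟩
      · intro i hi
        exact (Finset.mem_filter.1 (hS1 hi)).2
  have hp0 : 0 ≤ μ.real {0} := measureReal_nonneg
  have hq0 : 0 ≤ μ.real {1} := measureReal_nonneg
  have b1 : P.real E1 = (1 - μ.real {1}) ^ m := by
    rw [hE1, hP, Pm_not_one, hW2]
  have b2 : P.real E2 ≤ m * ((d * ((2 * ((3 * d + 1) * s) + 1) * (4 * d + 3) ^ d) : ℕ) *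
      (μ.real {1} * μ.real {0})) := by
    rw [hE2]
    refine le_trans (measureReal_biUnion_finset_le _ _) ?_
    calc ∑ w ∈ W, P.real (⋃ u ∈ tubeF s w, {ω | ω w = 1 ∧ ω u = 0})
        ≤ ∑ _w ∈ W, ((d * ((2 * ((3 * d + 1) * s) + 1) * (4 * d + 3) ^ d) : ℕ) : ℝ) *
            (μ.real {1} * μ.real {0}) := by
          apply Finset.sum_le_sum
          intro w _
          refine le_trans (measureReal_biUnion_finset_le _ _) ?_
          calc ∑ u ∈ tubeF s w, P.real {ω | ω w = 1 ∧ ω u = 0}
              ≤ ∑ _u ∈ tubeF s w, μ.real {1} * μ.real {0} :=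
                Finset.sum_le_sum (fun u _ => Pm_pair μ w u)
            _ = (tubeF s w).card * (μ.real {1} * μ.real {0}) := by
                rw [Finset.sum_const, nsmul_eq_mul]
            _ ≤ _ := by
                apply mul_le_mul_of_nonneg_right _ (by positivity)
                exact_mod_cast card_tubeF s w
      _ = _ := by rw [Finset.sum_const, nsmul_eq_mul, hW2]
  have b3 : P.real E3 ≤ s ^ d * ((2 ^ ((4 * d + 3) ^ d) : ℕ) * μ.real {0} ^ d) := by
    rw [hE3]
    refine le_trans (measureReal_biUnion_finset_le _ _) ?_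
    calc ∑ x ∈ cellF s c, P.real (⋃ S ∈ (bxF x (2 * d + 1)).powersetCard d, {ω | ∀ i ∈ S, ω i = 0})
        ≤ ∑ _x ∈ cellF s c, ((2 ^ ((4 * d + 3) ^ d) : ℕ) : ℝ) * μ.real {0} ^ d := by
          apply Finset.sum_le_sum
          intro x _
          refine le_trans (measureReal_biUnion_finset_le _ _) ?_
          calc ∑ S ∈ (bxF x (2 * d + 1)).powersetCard d, P.real {ω | ∀ i ∈ S, ω i = 0}
              = ∑ _S ∈ (bxF x (2 * d + 1)).powersetCard d, μ.real {0} ^ d := by
                apply Finset.sum_congr rfl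
                intro S hS
                rw [hP, Pm_zero, (Finset.mem_powersetCard.1 hS).2]
            _ = ((bxF x (2 * d + 1)).powersetCard d).card * μ.real {0} ^ d := by
                rw [Finset.sum_const, nsmul_eq_mul]
            _ ≤ _ := by
                apply mul_le_mul_of_nonneg_right _ (by positivity)
                have : ((bxF x (2 * d + 1)).powersetCard d).card ≤ 2 ^ ((4 * d + 3) ^ d) := by
                  rw [Finset.card_powersetCard, card_bxF]
                  refine le_trans (Nat.choose_le_two_pow _ _) (le_of_eq ?_)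
                  congr 2
                  ring
                exact_mod_cast this
      _ = _ := by
          rw [Finset.sum_const, nsmul_eq_mul, card_cellF]
          push_cast
          ring
  calc P.real (ev (s : ℤ) 0 c) ≤ P.real (E1 ∪ E2 ∪ E3) := measureReal_mono hsub (measure_ne_top _ _)
    _ ≤ P.real (E1 ∪ E2) + P.real E3 := measureReal_union_le _ _
    _ ≤ P.real E1 + P.real E2 + P.real E3 := by
        have := measureReal_union_le (μ := P) E1 E2
        linarith
    _ ≤ _ := by rw [b1]; linarith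

end Pool.Agent.H500R3.Pol
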