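import Pool.Agent.H500R3.Pol.Lev

/-! Configurations: the final configuration is contained in the islands and the local closure. -/

set_option autoImplicit false

namespace Pool.Agent.H500R3.Pol
open Finset

variable {d : ℕ}

/-- initially occupied sites -/
def Occ (ω : V d → Fin 3) : Set (V d) := {x | ω x = 0}

/-- good apexes -/
def GG (s : ℤ) (ω : V d → Fin 3) : Set (V d) :=
  {w | ω w = 1 ∧ ∀ i : Fin d, ∀ t : ℤ, |t| ≤ (3 * d + 1) * s →
    ∀ u ∈ bx (w + Pi.single i t) (2 * d + 1), ω u ≠ 0}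

/-- bad cells -/
def BB (s : ℤ) (ω : V d → Fin 3) : Set (V d) :=
  {c | (¬ ∃ w ∈ GG s ω, pr s w = c) ∨
    ∃ x, pr s x = c ∧ d ≤ (Occ ω ∩ bx x (2 * d + 1)).ncard}

/-- sets which contain the occupied sites and are closed under the dynamics with threshold `d` -/
def Clo (ω : V d → Fin 3) (S : Set (V d)) : Prop :=
  (∀ x, ω x = 0 → x ∈ S) ∧ ∀ x, ω x ≠ 1 → d ≤ ({y | y ∈ S ∧ nm (y - x) = 1}).ncard → x ∈ S

theorem closed (hd : 2 ≤ d) {s : ℤ} (hs : 1 ≤ s) {code : V d → ℕ} (hcode : Function.Injective code)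
    {ω : V d → Fin 3} (hB : ∀ c ∈ BB s ω, ∃ n, c ∉ EE (ca d) (cb d) (BB s ω) n) :
    Clo ω (Ou s (cL d) (cρ d) (cR d) (ZZ code (ca d) (cb d) (BB s ω)) (GG s ω) (BB s ω) ∪
      Ap (Occ ω) (2 * d)) := by
  have hG : ∀ c, c ∉ BB s ω → ∃ w ∈ GG s ω, pr s w = c := by
    intro c hc
    by_contra hcon
    exact hc (Or.inl hcon)
  have H := hyp (d := d) (by omega) hs hcode hG hB
  constructor
  · intro x hx
    right
    exact Ap_sub _ (by positivity) hx
  · intro x hx hcard
    by_contra hxS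
    rw [Set.mem_union] at hxS
    push Not at hxS
    have hxO := hxS.1
    have hxA := hxS.2
    have h1 : x ∉ GG s ω := fun h => hx h.1
    have hbad := no_bad H hxO (c := pr s x) (by rw [sub_self, nm_zero]; positivity)
    have hfew : (Occ ω ∩ bx x (2 * d + 1)).ncard ≤ d - 1 := by
      by_contra hcon
      push Not at hcon
      exact hbad (Or.inr ⟨x, rfl, by omega⟩)
    have h2 := Ap_one (n := d - 1) (K := 2 * d) (by
      have : ((d - 1 : ℕ) : ℤ) ≤ d := by
        exact_mod_cast Nat.sub_le d 1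
      linarith) hxA hfew
    have h3 := stable H hd hxO h1 h2 (by
      intro w hw i hax hdist y hy hyx
      obtain ⟨u, hu1, hu2⟩ := Ap_near hy
      have h4 : x = w + Pi.single i (x i - w i) := by
        funext j
        rw [Pi.add_apply]
        by_cases hj : j = i
        · subst hj; rw [Pi.single_eq_same]; ring
        · rw [Pi.single_eq_of_ne hj, hax j hj, add_zero]
      have h5 : u ∈ bx x (2 * d + 1) := bx_nb hyx hu2
      rw [h4] at h5
      exact hw.2 i (x i - w i) hdist u h5 hu1)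
    omega

theorem incl (hd : 2 ≤ d) {s : ℤ} (hs : 1 ≤ s) {ω : V d → Fin 3} (h : ∀ S, Clo ω S → (0 : V d) ∈ S) :
    (∃ c, ∀ n, c ∈ EE (ca d) (cb d) (BB s ω) n) ∨
    (∃ k, ∃ z, nm z ≤ 6 * XX d k + 4 * d ∧ z ∈ EE (ca d) (cb d) (BB s ω) k) ∨
    (∃ u ∈ bx (0 : V d) (2 * d), ω u = 0) := by
  classical
  by_cases hB : ∀ c ∈ BB s ω, ∃ n, c ∉ EE (ca d) (cb d) (BB s ω) n
  · right
    obtain ⟨code, hcode⟩ := exists_injective_nat (V d)
    have h1 := h _ (closed hd hs hcode hB)
    rcases h1 with h1 | h1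
    · left
      obtain ⟨k, z, hz, h2⟩ := h1
      have hG : ∀ c, c ∉ BB s ω → ∃ w ∈ GG s ω, pr s w = c := by
        intro c hc
        by_contra hcon
        exact hc (Or.inl hcon)
      have H := hyp (d := d) (by omega) hs hcode hG hB
      have h3 := OO_ball H h2
      refine ⟨k, z, ?_, hz.1.1⟩
      have h4 : pr s (0 : V d) = 0 := by
        funext i
        show (0 : ℤ) / s = 0
        exact Int.zero_ediv s
      rw [h4, zero_sub, nm_neg] at h3
      unfold cR at h3
      linarith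
    · right
      obtain ⟨u, hu1, hu2⟩ := Ap_near h1
      exact ⟨u, hu2, hu1⟩
  · left
    push Not at hB
    obtain ⟨c, _, hc⟩ := hB
    exact ⟨c, hc⟩

end Pool.Agent.H500R3.Pol
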