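import Pool.Agent.H500R3.Pol.Geo

/-! The healthy region: deterministic part. -/

set_option autoImplicit false

namespace Pool.Agent.H500R3.Pol
open Finset

variable {d : ℕ}

/-- the cell of a site -/
def pr (s : ℤ) (x : V d) : V d := fun i => x i / s

theorem pr_mono {s : ℤ} (hs : 1 ≤ s) {σ x w : V d} (hσ : Sgn σ) (h : ∀ i, 0 ≤ σ i * (x i - w i)) :
    ∀ i, 0 ≤ σ i * ((pr s x - pr s w) i) := by
  intro i
  have h1 := h i
  unfold pr
  rw [Pi.sub_apply]
  rcases hσ i with h2 | h2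
  · rw [h2, one_mul] at h1 ⊢
    have := Int.ediv_le_ediv (by omega : 0 < s) (by linarith : w i ≤ x i)
    linarith
  · rw [h2, neg_one_mul] at h1 ⊢
    have := Int.ediv_le_ediv (by omega : 0 < s) (by linarith : x i ≤ w i)
    linarith

theorem ediv_lip {s : ℤ} (hs : 1 ≤ s) (a b : ℤ) : |a / s - b / s| ≤ |a - b| := by
  have h0 : 0 < s := by omega
  have a1 := Int.mul_ediv_add_emod a s
  have a2 := Int.emod_nonneg a h0.ne'
  have a3 := Int.emod_lt_of_pos a h0
  have b1 := Int.mul_ediv_add_emod b s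
  have b2 := Int.emod_nonneg b h0.ne'
  have b3 := Int.emod_lt_of_pos b h0
  rcases le_total b a with h | h
  · rw [abs_of_nonneg (by linarith : 0 ≤ a - b)]
    have h1 := Int.ediv_le_ediv h0 h
    rw [abs_of_nonneg (by linarith)]
    by_contra hcon
    push Not at hcon
    -- s * (a/s - b/s) ≤ (a - b) + (s - 1)
    have h2 : s * (a / s - b / s) ≤ (a - b) + (s - 1) := by nlinarith
    nlinarith
  · rw [abs_of_nonpos (by linarith : a - b ≤ 0)]
    have h1 := Int.ediv_le_ediv h0 h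
    rw [abs_of_nonpos (by linarith)]
    by_contra hcon
    push Not at hcon
    have h2 : s * (b / s - a / s) ≤ (b - a) + (s - 1) := by nlinarith
    nlinarith

theorem pr_lip {s : ℤ} (hs : 1 ≤ s) (x y : V d) : nm (pr s x - pr s y) ≤ nm (x - y) := by
  unfold nm
  apply Finset.sum_le_sum
  intro i _
  exact ediv_lip hs (x i) (y i)

theorem le_of_cell {s : ℤ} (hs : 1 ≤ s) {σ x w : V d} (hσ : Sgn σ) (h : pr s w = pr s x - σ) :
    ∀ i, 0 ≤ σ i * (x i - w i) := by
  intro i
  have h1 : w i / s = x i / s - σ i := congrFun h i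
  have h0 : 0 < s := by omega
  have a1 := Int.mul_ediv_add_emod (x i) s
  have a2 := Int.emod_nonneg (x i) h0.ne'
  have a3 := Int.emod_lt_of_pos (x i) h0
  have b1 := Int.mul_ediv_add_emod (w i) s
  have b2 := Int.emod_nonneg (w i) h0.ne'
  have b3 := Int.emod_lt_of_pos (w i) h0
  rw [h1] at b1
  rcases hσ i with h2 | h2
  · rw [h2] at b1 ⊢
    nlinarith
  · rw [h2] at b1 ⊢
    nlinarith

theorem dist_of_cell {s : ℤ} (hs : 1 ≤ s) {x w : V d} {n : ℤ} (h : nm (pr s x - pr s w) ≤ n) :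
    ∀ i, |x i - w i| ≤ (n + 1) * s := by
  intro i
  have h1 : |x i / s - w i / s| ≤ n := le_trans (abs_le_nm (pr s x - pr s w) i) h
  have h0 : 0 < s := by omega
  have a1 := Int.mul_ediv_add_emod (x i) s
  have a2 := Int.emod_nonneg (x i) h0.ne'
  have a3 := Int.emod_lt_of_pos (x i) h0
  have b1 := Int.mul_ediv_add_emod (w i) s
  have b2 := Int.emod_nonneg (w i) h0.ne'
  have b3 := Int.emod_lt_of_pos (w i) h0
  rw [abs_le] at h1 ⊢
  constructor <;> nlinarith [h1.1, h1.2]

theorem nm_sgn {σ : V d} (hσ : Sgn σ) : nm σ = d := by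
  unfold nm
  have : ∀ i ∈ (Finset.univ : Finset (Fin d)), |σ i| = 1 := by
    intro i _
    rcases hσ i with h | h <;> rw [h] <;> simp
  rw [Finset.sum_congr rfl this]
  simp

theorem hh_self {σ : V d} (hσ : Sgn σ) : hh σ σ = d := by
  unfold hh
  have : ∀ i ∈ (Finset.univ : Finset (Fin d)), σ i * σ i = 1 := by
    intro i _
    rcases hσ i with h | h <;> rw [h] <;> simp
  rw [Finset.sum_congr rfl this]
  simp

/-- neighbours -/
theorem nm_eq_one {x : V d} (h : nm x = 1) : ∃ i, x = Pi.single i 1 ∨ x = Pi.single i (-1) := by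
  classical
  have hne : ∃ i, x i ≠ 0 := by
    by_contra hcon
    push Not at hcon
    have : nm x = 0 := by
      unfold nm
      exact Finset.sum_eq_zero (fun i _ => by rw [hcon i, abs_zero])
    omega
  obtain ⟨i, hi⟩ := hne
  have h1 : 1 ≤ |x i| := Int.one_le_abs hi
  have h2 : nm x = |x i| + ∑ j ∈ Finset.univ.erase i, |x j| :=
    (Finset.add_sum_erase _ _ (Finset.mem_univ i)).symm
  have h3 : ∀ j, j ≠ i → x j = 0 := by
    intro j hj
    have h4 : |x j| ≤ ∑ j ∈ Finset.univ.erase i, |x j| :=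
      Finset.single_le_sum (f := fun j => |x j|) (fun _ _ => abs_nonneg _)
        (Finset.mem_erase.2 ⟨hj, Finset.mem_univ j⟩)
    have h5 := abs_nonneg (x j)
    exact abs_eq_zero.1 (by omega)
  have h6 : 0 ≤ ∑ j ∈ Finset.univ.erase i, |x j| := Finset.sum_nonneg (fun _ _ => abs_nonneg _)
  have h7 : |x i| = 1 := by omega
  refine ⟨i, ?_⟩
  rcases (abs_eq (by norm_num : (0 : ℤ) ≤ 1)).1 h7 with h8 | h8
  · left
    funext j
    by_cases hj : j = i
    · subst hj; rw [Pi.single_eq_same, h8]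
    · rw [Pi.single_eq_of_ne hj, h3 j hj]
  · right
    funext j
    by_cases hj : j = i
    · subst hj; rw [Pi.single_eq_same, h8]
    · rw [Pi.single_eq_of_ne hj, h3 j hj]

section main

variable (s L : ℤ) (ρ b T R a : ℕ → ℤ) (Z : ℕ → Set (V d)) (G B : Set (V d))

/-- the backward closed set of an island in direction `σ` -/
def Lam (σ : V d) (k : ℕ) (z : V d) : Set (V d) :=
  {c | ∃ x0, hh σ (x0 - z) ≤ R k ∧ Rch σ L ρ Z k x0 c}

/-- the island -/
def OO (k : ℕ) (z : V d) : Set (V d) :=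
  {x | ∀ σ, Sgn σ → ∀ w, (∀ i, 0 ≤ σ i * (x i - w i)) → (w ∈ G ∨ pr s w ∈ B) →
    pr s w ∈ Lam L ρ R Z σ k z}

/-- the union of the islands -/
def Ou : Set (V d) := {x | ∃ k, ∃ z ∈ Z k, x ∈ OO s L ρ R Z G B k z}

/-- the hypotheses on the islands and the constants -/
structure Hyp : Prop where
  hd : 1 ≤ d
  hs : 1 ≤ s
  hL : (d : ℤ) + 2 + 0 ≤ L
  hρ : ∀ k, R k + T k + d + 1 ≤ ρ k
  hR : ∀ k, a k + 3 * d ≤ R k
  ha : ∀ k, 0 ≤ a k
  hT0 : 0 ≤ T 0
  hT : ∀ k, 2 * T k + 4 * ρ k + 2 * L ≤ T (k + 1)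
  hb : ∀ k, ((T k + 4 * ρ k + 2 * L : ℤ) : ℝ) ≤ (cc k - cc (k + 1)) * ((b k - 2 * ρ k - L : ℤ) : ℝ)
  hb2 : ∀ k, 2 * (R k + T k + d) + 2 ≤ b k
  hZ : ∀ k, ∀ z ∈ Z k, ∀ z' ∈ Z k, z ≠ z' → b k < nm (z - z')
  hB : ∀ c ∈ B, ∃ k, ∃ z ∈ Z k, nm (c - z) ≤ a k
  hG : ∀ c, c ∉ B → ∃ w ∈ G, pr s w = c

variable {s L ρ b T R a Z G B}

theorem Lam_down {σ z c c' : V d} {k : ℕ} (h : c ∈ Lam L ρ R Z σ k z) (h' : Kc σ (c - c')) :
    c' ∈ Lam L ρ R Z σ k z := by
  obtain ⟨x0, h1, h2⟩ := h
  exact ⟨x0, h1, Rch_down h2 h'⟩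

theorem Lam_jump {σ z c c' z' : V d} {k j : ℕ} (hj : j < k) (hz' : z' ∈ Z j)
    (h : c ∈ Lam L ρ R Z σ k z) (h1 : nm (c - z') ≤ ρ j + L) (h2 : nm (c' - z') ≤ ρ j) :
    c' ∈ Lam L ρ R Z σ k z := by
  obtain ⟨x0, h3, h4⟩ := h
  exact ⟨x0, h3, Rch_jump hj hz' h4 h1 h2⟩

theorem Hyp.Tn (H : Hyp (d := d) s L ρ b T R a Z G B) (k : ℕ) : 0 ≤ T k := by
  cases k with
  | zero => exact H.hT0
  | succ k =>
    have hall : ∀ k, 0 ≤ T k := by
      intro k
      induction k with
      | zero => exact H.hT0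
      | succ k ih =>
        have := H.hT k
        have h1 := H.hρ k
        have h2 := H.hR k
        have h3 := H.ha k
        have h4 := H.hL
        have h5 : (0 : ℤ) ≤ d := Int.natCast_nonneg d
        linarith
    exact hall _

theorem Hyp.ρn (H : Hyp (d := d) s L ρ b T R a Z G B) (k : ℕ) : 0 ≤ ρ k := by
  have h1 := H.hρ k
  have h2 := H.hR k
  have h3 := H.ha k
  have h4 := H.Tn k
  have h5 : (0 : ℤ) ≤ d := Int.natCast_nonneg d
  linarith

theorem Lam_height (H : Hyp (d := d) s L ρ b T R a Z G B) {σ z c : V d} {k : ℕ} (hσ : Sgn σ)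
    (h : c ∈ Lam L ρ R Z σ k z) : hh σ (c - z) ≤ R k + T k := by
  obtain ⟨x0, h1, h2⟩ := h
  have hL0 : 0 ≤ L := by
    have := H.hL
    have h5 : (0 : ℤ) ≤ d := Int.natCast_nonneg d
    linarith
  have h3 := Rch_height hσ hL0 H.ρn H.hZ H.hT0 H.hT H.hb k x0 c h2
  have h4 : (0 : ℝ) ≤ cc k * ((nm (c - x0) : ℤ) : ℝ) :=
    mul_nonneg (cc_pos k) (by exact_mod_cast nm_nonneg _)
  have h5 : ((hh σ c - hh σ x0 : ℤ) : ℝ) ≤ ((T k : ℤ) : ℝ) := by linarith
  have h6 : hh σ c - hh σ x0 ≤ T k := by exact_mod_cast h5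
  rw [hh_sub] at h1 ⊢
  linarith

theorem OO_of_Lam {x z : V d} {k : ℕ} (hs : 1 ≤ s) (h : ∀ σ, Sgn σ → pr s x ∈ Lam L ρ R Z σ k z) :
    x ∈ OO s L ρ R Z G B k z := by
  intro σ hσ w hw _
  exact Lam_down (h σ hσ) (Kc_oct hσ (pr_mono hs hσ hw))

theorem OO_of_near {x z : V d} {k : ℕ} (hs : 1 ≤ s) (h : nm (pr s x - z) ≤ R k) :
    x ∈ OO s L ρ R Z G B k z := by
  apply OO_of_Lam hs
  intro σ hσ
  exact ⟨pr s x, le_trans (hh_le_nm hσ _) h, Rch_refl _ _⟩

theorem OO_corner (H : Hyp (d := d) s L ρ b T R a Z G B) {x z σ : V d} {k : ℕ} (hσ : Sgn σ)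
    (h : x ∈ OO s L ρ R Z G B k z) : pr s x - σ ∈ Lam L ρ R Z σ k z := by
  by_cases hc : pr s x - σ ∈ B
  · set w : V d := fun i => s * (pr s x - σ) i with hw
    have hpw : pr s w = pr s x - σ := by
      funext i
      show s * (pr s x - σ) i / s = _
      rw [Int.mul_ediv_cancel_left _ (by have := H.hs; omega)]
    rw [← hpw]
    apply h σ hσ w (le_of_cell H.hs hσ hpw)
    right
    rw [hpw]
    exact hc
  · obtain ⟨w, hw1, hw2⟩ := H.hG _ hc
    rw [← hw2]
    exact h σ hσ w (le_of_cell H.hs hσ hw2) (Or.inl hw1)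

theorem OO_ball (H : Hyp (d := d) s L ρ b T R a Z G B) {x z : V d} {k : ℕ}
    (h : x ∈ OO s L ρ R Z G B k z) : nm (pr s x - z) ≤ R k + T k + d := by
  set σ : V d := fun i => if 0 ≤ (pr s x - z) i then 1 else -1 with hσd
  have hσ : Sgn σ := by
    intro i
    show (if 0 ≤ (pr s x - z) i then (1 : ℤ) else -1) = 1 ∨
      (if 0 ≤ (pr s x - z) i then (1 : ℤ) else -1) = -1
    split_ifs
    · exact Or.inl rfl
    · exact Or.inr rfl
  have h1 := Lam_height H hσ (OO_corner H hσ h)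
  have h2 : pr s x - σ - z = (pr s x - z) - σ := by abel
  rw [h2, hh_sub, hh_self hσ, hh_eq_nm hσ] at h1
  · linarith
  · intro i
    show 0 ≤ (if 0 ≤ (pr s x - z) i then (1 : ℤ) else -1) * (pr s x - z) i
    split_ifs with h3
    · linarith
    · linarith

/-- no bad cell near a healthy site -/
theorem no_bad (H : Hyp (d := d) s L ρ b T R a Z G B) {x c : V d} (hx : x ∉ Ou s L ρ R Z G B)
    (hc : nm (pr s x - c) ≤ 3 * d) : c ∉ B := by
  intro hcB
  obtain ⟨k, z, hz, h1⟩ := H.hB c hcB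
  apply hx
  refine ⟨k, z, hz, OO_of_near H.hs ?_⟩
  have h2 := nm_sub_le (pr s x) c z
  have h3 := H.hR k
  linarith

/-- a healthy site sees only one island -/
theorem unique_island (H : Hyp (d := d) s L ρ b T R a Z G B) {x y y' z z' : V d} {k k' : ℕ}
    (hx : x ∉ Ou s L ρ R Z G B) (hz : z ∈ Z k) (hz' : z' ∈ Z k') (hk : k' ≤ k)
    (hy : y ∈ OO s L ρ R Z G B k z) (hy' : y' ∈ OO s L ρ R Z G B k' z')
    (hxy : nm (y - x) ≤ 1) (hxy' : nm (y' - x) ≤ 1) : k = k' ∧ z = z' := by
  have h1 := OO_ball H hy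
  have h2 := OO_ball H hy'
  have h3 := le_trans (pr_lip H.hs y x) hxy
  have h4 := le_trans (pr_lip H.hs y' x) hxy'
  rcases lt_or_eq_of_le hk with hlt | heq
  · exfalso
    apply hx
    refine ⟨k, z, hz, OO_of_Lam H.hs ?_⟩
    intro σ hσ
    have h5 := OO_corner H hσ hy
    refine Lam_jump hlt hz' h5 ?_ ?_
    · -- distance from the corner to the small island
      have a1 := nm_sub_le (pr s y - σ) (pr s x) z'
      have a2 := nm_sub_le (pr s y - σ) (pr s y) (pr s x)
      have a3 := nm_sub_le (pr s x) (pr s y') z'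
      have a4 : nm (pr s y - σ - pr s y) = d := by
        have : pr s y - σ - pr s y = -σ := by abel
        rw [this, nm_neg, nm_sgn hσ]
      rw [nm_sub_comm (pr s x) (pr s y')] at a3
      have a5 := H.hρ k'
      have a6 := H.hL
      linarith
    · have a3 := nm_sub_le (pr s x) (pr s y') z'
      rw [nm_sub_comm (pr s x) (pr s y')] at a3
      have a5 := H.hρ k'
      linarith
  · subst heq
    refine ⟨rfl, ?_⟩
    by_contra hne
    have h5 := H.hZ k' z hz z' hz' hne
    have a1 := nm_sub_le z (pr s y) z'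
    have a2 := nm_sub_le (pr s y) (pr s x) z'
    have a3 := nm_sub_le (pr s x) (pr s y') z'
    rw [nm_sub_comm z (pr s y)] at a1
    rw [nm_sub_comm (pr s x) (pr s y')] at a3
    have a4 := H.hb2 k'
    linarith

/-- the protecting octant -/
theorem octant (H : Hyp (d := d) s L ρ b T R a Z G B) {x z : V d} {k : ℕ}
    (hx : x ∉ Ou s L ρ R Z G B) (hz : z ∈ Z k) :
    ∃ σ w : V d, Sgn σ ∧ w ∈ G ∧ (∀ i, 0 ≤ σ i * (x i - w i)) ∧
      (∀ i, |x i - w i| ≤ (3 * d + 1) * s) ∧
      ∀ y ∈ OO s L ρ R Z G B k z, ¬ ∀ i, 0 ≤ σ i * (y i - w i) := by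
  have hxO : x ∉ OO s L ρ R Z G B k z := fun h => hx ⟨k, z, hz, h⟩
  have h1 : ∃ σ, Sgn σ ∧ ∃ w, (∀ i, 0 ≤ σ i * (x i - w i)) ∧ (w ∈ G ∨ pr s w ∈ B) ∧
      pr s w ∉ Lam L ρ R Z σ k z := by
    by_contra hcon
    push Not at hcon
    exact hxO (fun σ hσ w hw1 hw2 => hcon σ hσ w hw1 hw2)
  obtain ⟨σ, hσ, w, hw1, hw2, hw3⟩ := h1
  have hd := H.hd
  have hd' : (1 : ℤ) ≤ d := by exact_mod_cast hd
  rcases le_or_gt (nm (pr s x - pr s w)) (3 * d) with hcase | hcase
  · have hwB : pr s w ∉ B := no_bad H hx hcase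
    have hwG : w ∈ G := hw2.resolve_right hwB
    refine ⟨σ, w, hσ, hwG, hw1, dist_of_cell H.hs hcase, ?_⟩
    intro y hy hyw
    exact hw3 (hy σ hσ w hyw (Or.inl hwG))
  · have hc : pr s x - σ ∉ Lam L ρ R Z σ k z := by
      intro hc
      apply hw3
      refine Lam_down hc ?_
      unfold Kc
      have e : pr s x - σ - pr s w = (pr s x - pr s w) - σ := by abel
      rw [e, hh_sub, hh_self hσ, hh_eq_nm hσ (pr_mono H.hs hσ hw1)]
      have h2 : nm (pr s x - pr s w - σ) ≤ nm (pr s x - pr s w) + nm σ := by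
        rw [sub_eq_add_neg]
        refine le_trans (nm_add_le _ _) ?_
        rw [nm_neg]
      rw [nm_sgn hσ] at h2
      linarith
    have hcd : nm (pr s x - (pr s x - σ)) = d := by
      rw [sub_sub_cancel, nm_sgn hσ]
    have hcB : pr s x - σ ∉ B := no_bad H hx (by rw [hcd]; linarith)
    obtain ⟨w', hw', hw'2⟩ := H.hG _ hcB
    refine ⟨σ, w', hσ, hw', le_of_cell H.hs hσ hw'2, ?_, ?_⟩
    · apply dist_of_cell H.hs
      rw [hw'2, hcd]
      linarith
    · intro y hy hyw
      apply hc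
      rw [← hw'2]
      exact hy σ hσ w' hyw (Or.inl hw')

/-- the healthy region is stable -/
theorem stable (H : Hyp (d := d) s L ρ b T R a Z G B) (hd2 : 2 ≤ d) {A' : Set (V d)}
    {x : V d} (hxO : x ∉ Ou s L ρ R Z G B) (hxG : x ∉ G)
    (hA1 : ({y | y ∈ A' ∧ nm (y - x) = 1}).ncard ≤ 1)
    (hA2 : ∀ w ∈ G, ∀ i, (∀ j, j ≠ i → x j = w j) → |x i - w i| ≤ (3 * d + 1) * s →
      ∀ y ∈ A', nm (y - x) ≠ 1) :
    ({y | y ∈ Ou s L ρ R Z G B ∪ A' ∧ nm (y - x) = 1}).ncard < d := by
  classical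
  have hfin : ({y : V d | nm (y - x) = 1}).Finite := by
    apply Set.Finite.subset (Finset.finite_toSet
      ((Finset.univ.image (fun i : Fin d => x + Pi.single i 1)) ∪
        (Finset.univ.image (fun i : Fin d => x + Pi.single i (-1)))))
    intro y hy
    obtain ⟨i, hi | hi⟩ := nm_eq_one hy
    · rw [Finset.mem_coe, Finset.mem_union]
      left
      rw [Finset.mem_image]
      exact ⟨i, Finset.mem_univ i, by rw [← hi]; abel⟩
    · rw [Finset.mem_coe, Finset.mem_union]
      right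
      rw [Finset.mem_image]
      exact ⟨i, Finset.mem_univ i, by rw [← hi]; abel⟩
  have hunion : {y | y ∈ Ou s L ρ R Z G B ∪ A' ∧ nm (y - x) = 1} =
      {y | y ∈ Ou s L ρ R Z G B ∧ nm (y - x) = 1} ∪ {y | y ∈ A' ∧ nm (y - x) = 1} := by
    ext y
    constructor
    · rintro ⟨h1 | h1, h2⟩
      · exact Or.inl ⟨h1, h2⟩
      · exact Or.inr ⟨h1, h2⟩
    · rintro (⟨h1, h2⟩ | ⟨h1, h2⟩)
      · exact ⟨Or.inl h1, h2⟩
      · exact ⟨Or.inr h1, h2⟩
  rw [hunion]
  rcases Set.eq_empty_or_nonempty {y | y ∈ Ou s L ρ R Z G B ∧ nm (y - x) = 1} with he | hne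
  · rw [he, Set.empty_union]
    omega
  · obtain ⟨y0, ⟨k, z, hz, hy0⟩, hy0x⟩ := hne
    obtain ⟨σ, w, hσ, hwG, hwx, hdist, hout⟩ := octant H hxO hz
    set I : Finset (Fin d) := Finset.univ.filter (fun i => x i = w i) with hI
    have hxw : x ≠ w := fun h => hxG (h ▸ hwG)
    have hIne : I.card < d := by
      have : I ≠ Finset.univ := by
        intro h
        apply hxw
        funext i
        have : i ∈ I := by rw [h]; exact Finset.mem_univ i
        rw [hI, Finset.mem_filter] at this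
        exact this.2
      have := Finset.card_lt_card (Finset.ssubset_univ_iff.2 this)
      simpa using this
    have hsub : {y | y ∈ Ou s L ρ R Z G B ∧ nm (y - x) = 1} ⊆
        ((I.image (fun i => x - Pi.single i (σ i)) : Finset (V d)) : Set (V d)) := by
      rintro y ⟨⟨k', z', hz', hy⟩, hyx⟩
      have hyk : y ∈ OO s L ρ R Z G B k z := by
        rcases le_total k' k with hk | hk
        · obtain ⟨h1, h2⟩ := unique_island H hxO hz hz' hk hy0 hy (by linarith) (by linarith)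
          subst h1; subst h2; exact hy
        · obtain ⟨h1, h2⟩ := unique_island H hxO hz' hz hk hy hy0 (by linarith) (by linarith)
          subst h1; subst h2; exact hy
      have h3 := hout y hyk
      push Not at h3
      obtain ⟨i, hi⟩ := h3
      have h4 := hwx i
      obtain ⟨j, hj⟩ := nm_eq_one hyx
      have hyj : ∀ m, m ≠ j → y m = x m := by
        intro m hm
        have : (y - x) m = 0 := by
          rcases hj with hj | hj <;> rw [hj, Pi.single_eq_of_ne hm]
        rw [Pi.sub_apply] at this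
        linarith
      have hij : i = j := by
        by_contra hne
        rw [hyj i hne] at hi
        linarith
      subst hij
      have hyi : y i = x i + 1 ∨ y i = x i - 1 := by
        rcases hj with hj | hj
        · left
          have := congrFun hj i
          rw [Pi.sub_apply, Pi.single_eq_same] at this
          linarith
        · right
          have := congrFun hj i
          rw [Pi.sub_apply, Pi.single_eq_same] at this
          linarith
      have hfinal : x i = w i ∧ y i = x i - σ i := by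
        rcases hσ i with h5 | h5 <;> rw [h5] at hi h4 ⊢ <;> rcases hyi with h6 | h6 <;>
          rw [h6] at hi ⊢ <;> constructor <;> linarith
      rw [Finset.mem_coe, Finset.mem_image]
      refine ⟨i, ?_, ?_⟩
      · rw [hI, Finset.mem_filter]
        exact ⟨Finset.mem_univ i, hfinal.1⟩
      · funext m
        rw [Pi.sub_apply]
        by_cases hm : m = i
        · subst hm
          rw [Pi.single_eq_same]
          exact hfinal.2.symm
        · rw [Pi.single_eq_of_ne hm, hyj m hm, sub_zero]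
    have hcardO : ({y | y ∈ Ou s L ρ R Z G B ∧ nm (y - x) = 1}).ncard ≤ I.card := by
      refine le_trans (Set.ncard_le_ncard hsub (Finset.finite_toSet _)) ?_
      rw [Set.ncard_coe_finset]
      exact Finset.card_image_le
    have hun := Set.ncard_union_le {y | y ∈ Ou s L ρ R Z G B ∧ nm (y - x) = 1}
      {y | y ∈ A' ∧ nm (y - x) = 1}
    by_cases hI2 : I.card + 1 < d
    · omega
    · -- `x` lies on an axis
      have hIc : I.card = d - 1 := by omega
      have hcompl : (Finset.univ \ I).card = 1 := by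
        rw [Finset.card_sdiff_of_subset (Finset.subset_univ _), Finset.card_univ, Fintype.card_fin]
        omega
      obtain ⟨i, hi⟩ := Finset.card_eq_one.1 hcompl
      have hax : ∀ j, j ≠ i → x j = w j := by
        intro j hj
        have : j ∉ Finset.univ \ I := by
          rw [hi, Finset.mem_singleton]; exact hj
        rw [Finset.mem_sdiff] at this
        push Not at this
        have := this (Finset.mem_univ j)
        rw [hI, Finset.mem_filter] at this
        exact this.2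
      have hempty : {y | y ∈ A' ∧ nm (y - x) = 1} = ∅ := by
        apply Set.eq_empty_of_forall_notMem
        rintro y ⟨hy1, hy2⟩
        exact hA2 w hwG i hax (hdist i) y hy1 hy2
      rw [hempty, Set.union_empty]
      omega

end main

end Pool.Agent.H500R3.Pol
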