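import Pool.Agent.H500R3.Pol.Bad

/-! The final configuration has small density when the closed sites are denser than `p ^ d`. -/

set_option autoImplicit false

namespace Pool.Agent.H500R3.Pol
open Finset MeasureTheory ProbabilityTheory Filter Topology
open scoped ENNReal
open Pool.Agent.H500R3.Prod (Dep Pm Pm_indep)

variable {d : ℕ}

theorem vv_le (hd : 1 ≤ d) {η : ℝ} (h0 : 0 ≤ η) (k : ℕ) : vv d η k ≤ η * (1 / 2) ^ k := by
  refine le_trans ?_ (level_sum hd h0 k)
  have h1 := vv_nonneg hd h0 k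
  have h2 : (1 : ℝ) ≤ (((2 * (6 * XX d k + 4 * d).toNat + 1) ^ d : ℕ) : ℝ) := by
    have : 1 ≤ (2 * (6 * XX d k + 4 * d).toNat + 1) ^ d := Nat.one_le_pow _ _ (by omega)
    exact_mod_cast this
  nlinarith

/-- the event that the origin belongs to every closed set -/
def Hit (d : ℕ) : Set (V d → Fin 3) := {ω | ∀ S, Clo ω S → (0 : V d) ∈ S}

theorem hit_prob (hd : 2 ≤ d) {s : ℕ} (hs : 1 ≤ s) (μ : Measure (Fin 3)) [IsProbabilityMeasure μ]
    {η : ℝ} (h0 : 0 ≤ η) (h1 : η ≤ 1)
    (hbad : ∀ c : V d, (Pm μ).real (ev (s : ℤ) 0 c) ≤ vv d η 0) :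
    Pm μ (Hit d) ≤ ENNReal.ofReal (2 * η) + ENNReal.ofReal ((4 * d + 1 : ℕ) ^ d * μ.real {0}) := by
  classical
  have hd1 : 1 ≤ d := by omega
  have hs' : (1 : ℤ) ≤ s := by exact_mod_cast hs
  have hev : ∀ k (c : V d), Pm μ (ev (s : ℤ) k c) ≤ ENNReal.ofReal (vv d η k) := by
    intro k c
    apply ev_prob hd1 hs' μ h0 h1
    intro c
    rw [← ENNReal.ofReal_toReal (measure_ne_top (Pm μ) (ev (s : ℤ) 0 c))]
    exact ENNReal.ofReal_le_ofReal (hbad c)
  set N : Set (V d → Fin 3) := ⋃ c : V d, ⋂ n, ev (s : ℤ) n c with hN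
  set F : Set (V d → Fin 3) := ⋃ k : ℕ, ⋃ z ∈ bxF (0 : V d) (6 * XX d k + 4 * d).toNat,
    ev (s : ℤ) k z with hF
  set Q : Set (V d → Fin 3) := ⋃ u ∈ bxF (0 : V d) (2 * d), {ω | ∀ i ∈ ({u} : Finset (V d)), ω i = 0} with hQ
  have hsub : Hit d ⊆ N ∪ F ∪ Q := by
    intro ω hω
    rcases incl hd hs' hω with ⟨c, hc⟩ | ⟨k, z, hz, hz2⟩ | ⟨u, hu, hu2⟩
    · left; left
      rw [hN, Set.mem_iUnion]
      exact ⟨c, Set.mem_iInter.2 hc⟩
    · left; right
      rw [hF, Set.mem_iUnion]
      refine ⟨k, ?_⟩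
      rw [Set.mem_iUnion₂]
      refine ⟨z, ?_, hz2⟩
      apply mem_bxF_of_nm
      rw [zero_sub, nm_neg, Int.toNat_of_nonneg]
      · exact hz
      · have := XX_pos hd1 k
        positivity
    · right
      rw [hQ, Set.mem_iUnion₂]
      refine ⟨u, ?_, ?_⟩
      · rw [mem_bxF]
        push_cast
        exact hu
      · intro i hi
        rw [Finset.mem_singleton] at hi
        rw [hi]
        exact hu2
  have hN0 : Pm μ N = 0 := by
    rw [hN, measure_iUnion_null_iff]
    intro c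
    apply le_antisymm _ zero_le
    have hlim : Tendsto (fun n : ℕ => ENNReal.ofReal (η * (1 / 2) ^ n)) atTop (𝓝 0) := by
      have h2 : Tendsto (fun n : ℕ => η * (1 / 2 : ℝ) ^ n) atTop (𝓝 (η * 0)) :=
        (tendsto_pow_atTop_nhds_zero_of_lt_one (by norm_num) (by norm_num)).const_mul η
      rw [mul_zero] at h2
      have h3 := ENNReal.tendsto_ofReal h2
      rwa [ENNReal.ofReal_zero] at h3
    refine ge_of_tendsto' hlim ?_
    intro n
    calc Pm μ (⋂ n, ev (s : ℤ) n c) ≤ Pm μ (ev (s : ℤ) n c) := measure_mono (Set.iInter_subset _ n)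
      _ ≤ ENNReal.ofReal (vv d η n) := hev n c
      _ ≤ _ := ENNReal.ofReal_le_ofReal (vv_le hd1 h0 n)
  have hFm : Pm μ F ≤ ENNReal.ofReal (2 * η) := by
    rw [hF]
    refine le_trans (measure_iUnion_le _) ?_
    have hterm : ∀ k : ℕ, Pm μ (⋃ z ∈ bxF (0 : V d) (6 * XX d k + 4 * d).toNat, ev (s : ℤ) k z) ≤
        ENNReal.ofReal (η * (1 / 2) ^ k) := by
      intro k
      refine le_trans (measure_biUnion_finset_le _ _) ?_
      calc ∑ z ∈ bxF (0 : V d) (6 * XX d k + 4 * d).toNat, Pm μ (ev (s : ℤ) k z)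
          ≤ ∑ _z ∈ bxF (0 : V d) (6 * XX d k + 4 * d).toNat, ENNReal.ofReal (vv d η k) :=
            Finset.sum_le_sum (fun z _ => hev k z)
        _ = (((2 * (6 * XX d k + 4 * d).toNat + 1) ^ d : ℕ) : ℝ≥0∞) * ENNReal.ofReal (vv d η k) := by
            rw [Finset.sum_const, nsmul_eq_mul, card_bxF]
        _ = ENNReal.ofReal ((((2 * (6 * XX d k + 4 * d).toNat + 1) ^ d : ℕ) : ℝ) * vv d η k) := by
            rw [ENNReal.ofReal_mul (Nat.cast_nonneg _), ENNReal.ofReal_natCast]
        _ ≤ _ := ENNReal.ofReal_le_ofReal (level_sum hd1 h0 k)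
    refine le_trans (ENNReal.tsum_le_tsum hterm) ?_
    rw [← ENNReal.ofReal_tsum_of_nonneg]
    · apply ENNReal.ofReal_le_ofReal
      rw [tsum_mul_left, tsum_geometric_of_lt_one (by norm_num) (by norm_num)]
      norm_num
      linarith
    · intro n; positivity
    · exact (summable_geometric_of_lt_one (by norm_num) (by norm_num)).mul_left η
  have hQm : Pm μ Q ≤ ENNReal.ofReal ((4 * d + 1 : ℕ) ^ d * μ.real {0}) := by
    rw [← ENNReal.ofReal_toReal (measure_ne_top (Pm μ) Q)]
    apply ENNReal.ofReal_le_ofReal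
    have : (Pm μ).real Q ≤ (4 * d + 1 : ℕ) ^ d * μ.real {0} := by
      rw [hQ]
      refine le_trans (measureReal_biUnion_finset_le _ _) (le_of_eq ?_)
      calc ∑ u ∈ bxF (0 : V d) (2 * d), (Pm μ).real {ω | ∀ i ∈ ({u} : Finset (V d)), ω i = 0}
          = ∑ _u ∈ bxF (0 : V d) (2 * d), μ.real {0} := by
            apply Finset.sum_congr rfl
            intro u _
            rw [Pm_zero, Finset.card_singleton, pow_one]
        _ = (4 * d + 1 : ℕ) ^ d * μ.real {0} := by
            rw [Finset.sum_const, nsmul_eq_mul, card_bxF]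
            have : 2 * (2 * d) + 1 = 4 * d + 1 := by ring
            rw [this]
            push_cast
            rfl
    exact this
  calc Pm μ (Hit d) ≤ Pm μ (N ∪ F ∪ Q) := measure_mono hsub
    _ ≤ Pm μ (N ∪ F) + Pm μ Q := measure_union_le _ _
    _ ≤ Pm μ N + Pm μ F + Pm μ Q := by gcongr; exact measure_union_le _ _
    _ ≤ _ := by rw [hN0, zero_add]; exact add_le_add hFm hQm

/-- the choice of the scale -/
theorem quant (hd : 2 ≤ d) {δ : ℝ} (hδ : 0 < δ) : ∃ Λ p0 : ℝ, 0 < p0 ∧ ∀ (μ : Measure (Fin 3))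
    [IsProbabilityMeasure μ], 0 < μ.real {0} → μ.real {0} ≤ p0 →
    Λ * μ.real {0} ^ d ≤ μ.real {1} → Pm μ (Hit d) ≤ ENNReal.ofReal δ := by
  have hd1 : 1 ≤ d := by omega
  set η : ℝ := min 1 (δ / 4) with hη
  have hη0 : 0 < η := lt_min one_pos (by linarith)
  have hη1 : η ≤ 1 := min_le_left _ _
  have hη2 : η ≤ δ / 4 := min_le_right _ _
  set ε : ℝ := vv d η 0 with hε
  have hε0 : 0 < ε := by
    rw [hε]
    unfold vv
    have := BsR hd1
    positivity
  set M : ℝ := 1 + 3 / ε with hM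
  have hM0 : 0 < M := by positivity
  set C : ℝ := d * ((6 * d + 3) * (4 * d + 3) ^ d) with hC
  have hC0 : 0 < C := by
    have : (0 : ℝ) < d := by exact_mod_cast hd1
    positivity
  set C2 : ℝ := ((2 ^ ((4 * d + 3) ^ d) : ℕ) : ℝ) with hC2
  have hC20 : 0 < C2 := by
    rw [hC2]
    exact_mod_cast Nat.two_pow_pos _
  set κ : ℝ := min 1 (min (ε / (3 * (M * C))) (ε / (3 * C2))) with hκ
  have hκ0 : 0 < κ := by
    apply lt_min one_pos
    apply lt_min <;> positivity
  have hκ1 : κ ≤ 1 := min_le_left _ _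
  have hκ2 : κ ≤ ε / (3 * (M * C)) := le_trans (min_le_right _ _) (min_le_left _ _)
  have hκ3 : κ ≤ ε / (3 * C2) := le_trans (min_le_right _ _) (min_le_right _ _)
  set D : ℝ := (4 * d + 1 : ℕ) ^ d with hD
  have hD0 : 0 < D := by
    rw [hD]
    positivity
  refine ⟨M * (2 / κ) ^ d, min (κ / 2) (δ / (2 * D)), lt_min (by positivity) (by positivity), ?_⟩
  intro μ _ hp0 hp hq
  set p : ℝ := μ.real {0} with hpd
  set q : ℝ := μ.real {1} with hqd
  have hp1 : p ≤ κ / 2 := le_trans hp (min_le_left _ _)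
  have hp2 : p ≤ δ / (2 * D) := le_trans hp (min_le_right _ _)
  have hq0 : 0 < q := lt_of_lt_of_le (by positivity) hq
  have hq1 : q ≤ 1 := measureReal_le_one
  -- the scale
  have hkp : 2 ≤ κ / p := by
    rw [le_div_iff₀ hp0]; linarith
  set s : ℕ := ⌊κ / p⌋₊ with hs
  have hs1 : 1 ≤ s := by
    rw [hs]
    apply Nat.le_floor
    push_cast
    linarith
  have hs2 : (s : ℝ) ≤ κ / p := Nat.floor_le (by positivity)
  have hs3 : κ / (2 * p) ≤ s := by
    have h1 : κ / p < s + 1 := Nat.lt_floor_add_one _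
    have h2 : κ / (2 * p) = (κ / p) / 2 := by field_simp
    rw [h2]
    linarith
  set m : ℕ := ⌊M / q⌋₊ with hm
  have hm1 : (m : ℝ) ≤ M / q := Nat.floor_le (by positivity)
  have hm2 : M / q < m + 1 := Nat.lt_floor_add_one _
  have hms : m ≤ s ^ d := by
    have h1 : M / q ≤ (κ / (2 * p)) ^ d := by
      rw [div_le_iff₀ hq0]
      calc M = (κ / (2 * p)) ^ d * (M * (2 / κ) ^ d * p ^ d) := by
            have : (κ / (2 * p)) ^ d * ((2 / κ) ^ d * p ^ d) = 1 := by
              rw [← mul_pow, ← mul_pow]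
              have : κ / (2 * p) * (2 / κ * p) = 1 := by field_simp
              rw [this, one_pow]
            calc M = M * ((κ / (2 * p)) ^ d * ((2 / κ) ^ d * p ^ d)) := by rw [this, mul_one]
              _ = _ := by ring
        _ ≤ (κ / (2 * p)) ^ d * q := mul_le_mul_of_nonneg_left hq (by positivity)
    have h2 : (κ / (2 * p)) ^ d ≤ (s : ℝ) ^ d := pow_le_pow_left₀ (by positivity) hs3 d
    have h3 : (m : ℝ) ≤ (s : ℝ) ^ d := le_trans hm1 (le_trans h1 h2)
    exact_mod_cast h3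
  have hbad : ∀ c : V d, (Pm μ).real (ev (s : ℤ) 0 c) ≤ vv d η 0 := by
    intro c
    refine le_trans (bad_prob μ hs1 hms c) ?_
    have t1 : (1 - q) ^ m ≤ ε / 3 := by
      have h1 : (1 - q) ^ m ≤ Real.exp (-(q * m)) := by
        have h2 : 1 - q ≤ Real.exp (-q) := by
          have := Real.add_one_le_exp (-q)
          linarith
        calc (1 - q) ^ m ≤ (Real.exp (-q)) ^ m := pow_le_pow_left₀ (by linarith) h2 m
          _ = Real.exp (-(q * m)) := by
              rw [← Real.exp_nat_mul]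
              congr 1
              ring
      have h3 : 3 / ε ≤ q * m := by
        have h4 : M < q * (m + 1) := by
          rw [div_lt_iff₀ hq0] at hm2
          linarith
        rw [hM] at h4
        nlinarith
      have h5 : Real.exp (-(q * m)) ≤ Real.exp (-(3 / ε)) := Real.exp_le_exp.2 (by linarith)
      have h6 : Real.exp (-(3 / ε)) ≤ ε / 3 := by
        rw [Real.exp_neg]
        rw [inv_le_comm₀ (Real.exp_pos _) (by positivity)]
        have := Real.add_one_le_exp (3 / ε)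
        have h7 : (ε / 3)⁻¹ = 3 / ε := by rw [inv_div]
        rw [h7]
        linarith
      linarith
    have t2 : (m : ℝ) * ((d * ((2 * ((3 * d + 1) * s) + 1) * (4 * d + 3) ^ d) : ℕ) * (q * p)) ≤ ε / 3 := by
      have h1 : ((d * ((2 * ((3 * d + 1) * s) + 1) * (4 * d + 3) ^ d) : ℕ) : ℝ) ≤ C * s := by
        have h2 : d * ((2 * ((3 * d + 1) * s) + 1) * (4 * d + 3) ^ d) ≤
            d * ((6 * d + 3) * (4 * d + 3) ^ d) * s := by
          calc d * ((2 * ((3 * d + 1) * s) + 1) * (4 * d + 3) ^ d)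
              ≤ d * (((6 * d + 3) * s) * (4 * d + 3) ^ d) := by
                apply Nat.mul_le_mul_left
                apply Nat.mul_le_mul_right
                nlinarith
            _ = _ := by ring
        have h3 : ((d * ((2 * ((3 * d + 1) * s) + 1) * (4 * d + 3) ^ d) : ℕ) : ℝ) ≤
            ((d * ((6 * d + 3) * (4 * d + 3) ^ d) * s : ℕ) : ℝ) := by exact_mod_cast h2
        refine le_trans h3 (le_of_eq ?_)
        rw [hC]
        push_cast
        ring
      have h4 : (m : ℝ) * q ≤ M := by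
        rw [le_div_iff₀ hq0] at hm1
        exact hm1
      have h5 : (s : ℝ) * p ≤ κ := by
        rw [le_div_iff₀ hp0] at hs2
        exact hs2
      calc (m : ℝ) * ((d * ((2 * ((3 * d + 1) * s) + 1) * (4 * d + 3) ^ d) : ℕ) * (q * p))
          ≤ (m : ℝ) * ((C * s) * (q * p)) := by
            apply mul_le_mul_of_nonneg_left _ (Nat.cast_nonneg m)
            exact mul_le_mul_of_nonneg_right h1 (by positivity)
        _ = (m * q) * (C * (s * p)) := by ring
        _ ≤ M * (C * κ) := by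
            apply mul_le_mul h4 _ (by positivity) hM0.le
            exact mul_le_mul_of_nonneg_left h5 hC0.le
        _ ≤ ε / 3 := by
            rw [le_div_iff₀ (by positivity)] at hκ2
            linarith
    have t3 : (s : ℝ) ^ d * ((2 ^ ((4 * d + 3) ^ d) : ℕ) * p ^ d) ≤ ε / 3 := by
      have h5 : (s : ℝ) * p ≤ κ := by
        rw [le_div_iff₀ hp0] at hs2
        exact hs2
      calc (s : ℝ) ^ d * ((2 ^ ((4 * d + 3) ^ d) : ℕ) * p ^ d) = C2 * (s * p) ^ d := by
            rw [mul_pow]; ring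
        _ ≤ C2 * κ := by
            apply mul_le_mul_of_nonneg_left _ hC20.le
            calc (s * p) ^ d ≤ κ ^ d := pow_le_pow_left₀ (by positivity) h5 d
              _ ≤ κ := pow_le_of_le_one hκ0.le hκ1 (by omega)
        _ ≤ ε / 3 := by
            rw [le_div_iff₀ (by positivity)] at hκ3
            linarith
    linarith
  refine le_trans (hit_prob hd hs1 μ hη0.le hη1 hbad) ?_
  rw [← ENNReal.ofReal_add (by positivity) (by positivity)]
  apply ENNReal.ofReal_le_ofReal
  have h9 : D * p ≤ δ / 2 := by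
    rw [le_div_iff₀ (by positivity)] at hp2
    linarith
  have h10 : ((4 * d + 1 : ℕ) : ℝ) ^ d * p = D * p := by rw [hD]
  linarith

/-- the limit -/
theorem limit (hd : 2 ≤ d) (μ : ℕ → Measure (Fin 3)) [∀ n, IsProbabilityMeasure (μ n)]
    (hp : ∀ n, 0 < (μ n).real {0}) (hp0 : Tendsto (fun n => (μ n).real {0}) atTop (𝓝 0))
    (hq : Tendsto (fun n => (μ n).real {1} / (μ n).real {0} ^ d) atTop atTop) :
    Tendsto (fun n => Pm (μ n) (Hit d)) atTop (𝓝 0) := by
  rw [ENNReal.tendsto_nhds_zero]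
  intro δ hδ
  by_cases hδt : δ = ∞
  · rw [hδt]
    exact Eventually.of_forall (fun _ => le_top)
  · have hδ0 : 0 < δ.toReal := ENNReal.toReal_pos hδ.ne' hδt
    obtain ⟨Λ, p0, hp0', h⟩ := quant hd hδ0
    have e1 : ∀ᶠ n in atTop, (μ n).real {0} ≤ p0 := by
      filter_upwards [hp0.eventually_lt_const hp0'] with n hn
      exact hn.le
    have e2 : ∀ᶠ n in atTop, Λ ≤ (μ n).real {1} / (μ n).real {0} ^ d := hq.eventually_ge_atTop Λ
    filter_upwards [e1, e2] with n h1 h2
    rw [← ENNReal.ofReal_toReal hδt]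
    apply h (μ n) (hp n) h1
    rw [le_div_iff₀ (pow_pos (hp n) d)] at h2
    exact h2

/-- exponents below `d` -/
theorem ratio {p q : ℕ → ℝ} (hp : ∀ n, 0 < p n) (hq : ∀ n, 0 < q n)
    (hp0 : Tendsto p atTop (𝓝 0)) {α : ℝ} (hα : α < d)
    (h : Tendsto (fun n => Real.log (q n) / Real.log (p n)) atTop (𝓝 α)) :
    Tendsto (fun n => q n / p n ^ d) atTop atTop := by
  have h1 : Tendsto (fun n => Real.log (p n)) atTop atBot :=
    Real.tendsto_log_nhdsGT_zero.comp (tendsto_nhdsWithin_iff.2 ⟨hp0, Eventually.of_forall hp⟩)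
  have h2 : Tendsto (fun n => (Real.log (q n) / Real.log (p n) - d) * Real.log (p n)) atTop atTop := by
    have h3 : Tendsto (fun n => Real.log (q n) / Real.log (p n) - d) atTop (𝓝 (α - d)) :=
      h.sub_const _
    exact h3.neg_mul_atBot (by linarith) h1
  have h4 : ∀ᶠ n in atTop, (Real.log (q n) / Real.log (p n) - d) * Real.log (p n) =
      Real.log (q n / p n ^ d) := by
    filter_upwards [h1.eventually_lt_atBot 0] with n hn
    rw [Real.log_div (hq n).ne' (pow_pos (hp n) d).ne', Real.log_pow, sub_mul,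
      div_mul_cancel₀ _ hn.ne]
  have h5 : Tendsto (fun n => Real.log (q n / p n ^ d)) atTop atTop := h2.congr' h4
  have h6 := Real.tendsto_exp_atTop.comp h5
  refine h6.congr ?_
  intro n
  exact Real.exp_log (div_pos (hq n) (pow_pos (hp n) d))

end Pool.Agent.H500R3.Pol
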