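import Mathlib

/-! Coarse geometry: cones, chains of islands and the height bound. -/

set_option autoImplicit false

namespace Pool.Agent.H500R3.Pol
open Finset

/-- vertices -/
abbrev V (d : ℕ) : Type := Fin d → ℤ

variable {d : ℕ}

/-- the `ℓ¹` norm -/
def nm (x : V d) : ℤ := ∑ i, |x i|

/-- the height in direction `σ` -/
def hh (σ x : V d) : ℤ := ∑ i, σ i * x i

/-- sign vectors -/
def Sgn (σ : V d) : Prop := ∀ i, σ i = 1 ∨ σ i = -1

theorem nm_nonneg (x : V d) : 0 ≤ nm x := Finset.sum_nonneg (fun i _ => abs_nonneg _)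

theorem nm_zero : nm (0 : V d) = 0 := by simp [nm]

theorem nm_add_le (x y : V d) : nm (x + y) ≤ nm x + nm y := by
  unfold nm
  rw [← Finset.sum_add_distrib]
  exact Finset.sum_le_sum (fun i _ => abs_add_le _ _)

theorem nm_neg (x : V d) : nm (-x) = nm x := by
  unfold nm
  exact Finset.sum_congr rfl (fun i _ => by rw [Pi.neg_apply, abs_neg])

theorem nm_sub_comm (x y : V d) : nm (x - y) = nm (y - x) := by
  rw [← nm_neg (x - y), neg_sub]

theorem nm_sub_le (x y z : V d) : nm (x - z) ≤ nm (x - y) + nm (y - z) := by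
  have : x - z = (x - y) + (y - z) := by abel
  rw [this]
  exact nm_add_le _ _

theorem abs_le_nm (x : V d) (i : Fin d) : |x i| ≤ nm x :=
  Finset.single_le_sum (f := fun i => |x i|) (fun _ _ => abs_nonneg _) (Finset.mem_univ i)

theorem hh_add (σ x y : V d) : hh σ (x + y) = hh σ x + hh σ y := by
  unfold hh
  rw [← Finset.sum_add_distrib]
  exact Finset.sum_congr rfl (fun i _ => by rw [Pi.add_apply]; ring)

theorem hh_sub (σ x y : V d) : hh σ (x - y) = hh σ x - hh σ y := by
  unfold hh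
  rw [← Finset.sum_sub_distrib]
  exact Finset.sum_congr rfl (fun i _ => by rw [Pi.sub_apply]; ring)

theorem hh_le_nm {σ : V d} (hσ : Sgn σ) (x : V d) : hh σ x ≤ nm x := by
  unfold hh nm
  apply Finset.sum_le_sum
  intro i _
  rcases hσ i with h | h
  · rw [h, one_mul]; exact le_abs_self _
  · rw [h, neg_one_mul]; exact neg_le_abs _

theorem neg_nm_le_hh {σ : V d} (hσ : Sgn σ) (x : V d) : -nm x ≤ hh σ x := by
  have h1 := hh_le_nm hσ (-x)
  rw [nm_neg] at h1
  have h2 : hh σ (-x) = - hh σ x := by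
    unfold hh
    rw [← Finset.sum_neg_distrib]
    exact Finset.sum_congr rfl (fun i _ => by rw [Pi.neg_apply]; ring)
  linarith

/-- the wide cone -/
def Kc (σ x : V d) : Prop := nm x ≤ 2 * hh σ x

theorem Kc_zero (σ : V d) : Kc σ 0 := by
  unfold Kc
  rw [nm_zero]
  simp [hh]

theorem Kc_add {σ x y : V d} (hx : Kc σ x) (hy : Kc σ y) : Kc σ (x + y) := by
  unfold Kc at *
  rw [hh_add]
  linarith [nm_add_le x y]

theorem hh_eq_nm {σ x : V d} (hσ : Sgn σ) (h : ∀ i, 0 ≤ σ i * x i) : hh σ x = nm x := by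
  unfold hh nm
  apply Finset.sum_congr rfl
  intro i _
  have h1 := h i
  rcases hσ i with h2 | h2
  · rw [h2, one_mul] at h1 ⊢; exact (abs_of_nonneg h1).symm
  · rw [h2, neg_one_mul] at h1 ⊢
    rw [abs_of_nonpos (by linarith)]

theorem Kc_oct {σ x : V d} (hσ : Sgn σ) (h : ∀ i, 0 ≤ σ i * x i) : Kc σ x := by
  unfold Kc
  rw [hh_eq_nm hσ h]
  linarith [nm_nonneg x]

section chains

variable (σ : V d) (L : ℤ) (ρ b T : ℕ → ℤ) (Z : ℕ → Set (V d))

/-- `y` is reachable from `x` by backward moves in the cone and jumps into islands of level `< k` -/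
def Rch : ℕ → V d → V d → Prop
  | 0, x, y => Kc σ (x - y)
  | k + 1, x, y => Rch k x y ∨ ∃ z ∈ Z k, ∃ z' ∈ Z k, ∃ p q, Rch k x p ∧ nm (p - z) ≤ ρ k + L ∧
      Relation.ReflTransGen (fun z z' => z ∈ Z k ∧ z' ∈ Z k ∧ ∃ q p, nm (q - z) ≤ ρ k ∧ Rch k q p ∧
        nm (p - z') ≤ ρ k + L) z z' ∧ nm (q - z') ≤ ρ k ∧ Rch k q y

/-- slopes -/
noncomputable def cc (k : ℕ) : ℝ := 1 / 4 + (1 / 4) * (1 / 2) ^ k

theorem cc_pos (k : ℕ) : 0 ≤ cc k := by unfold cc; positivity

theorem cc_le (k : ℕ) : cc k ≤ 1 := by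
  unfold cc
  have : ((1 : ℝ) / 2) ^ k ≤ 1 := pow_le_one₀ (by norm_num) (by norm_num)
  linarith

theorem cc_succ_le (k : ℕ) : cc (k + 1) ≤ cc k := by
  unfold cc
  have : ((1 : ℝ) / 2) ^ (k + 1) ≤ (1 / 2) ^ k :=
    pow_le_pow_of_le_one (by norm_num) (by norm_num) (Nat.le_succ k)
  linarith

variable {σ L ρ b T Z}

theorem Rch_refl (k : ℕ) (x : V d) : Rch σ L ρ Z k x x := by
  induction k with
  | zero => unfold Rch; rw [sub_self]; exact Kc_zero σ
  | succ k ih => unfold Rch; exact Or.inl ih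

theorem Rch_down {k : ℕ} {x y w : V d} (h : Rch σ L ρ Z k x y) (hw : Kc σ (y - w)) :
    Rch σ L ρ Z k x w := by
  induction k generalizing x y with
  | zero =>
    unfold Rch at h ⊢
    have : x - w = (x - y) + (y - w) := by abel
    rw [this]
    exact Kc_add h hw
  | succ k ih =>
    unfold Rch at h ⊢
    rcases h with h | ⟨z, hz, z', hz', p, q, h1, h2, h3, h4, h5⟩
    · exact Or.inl (ih h hw)
    · exact Or.inr ⟨z, hz, z', hz', p, q, h1, h2, h3, h4, ih h5 hw⟩

theorem Rch_jump {k j : ℕ} (hj : j < k) {x y w z : V d} (hz : z ∈ Z j)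
    (h : Rch σ L ρ Z k x y) (hy : nm (y - z) ≤ ρ j + L) (hw : nm (w - z) ≤ ρ j) :
    Rch σ L ρ Z k x w := by
  induction k generalizing x y with
  | zero => omega
  | succ k ih =>
    unfold Rch at h ⊢
    rcases Nat.lt_succ_iff_lt_or_eq.1 hj with hjk | rfl
    · rcases h with h | ⟨z1, hz1, z', hz', p, q, h1, h2, h3, h4, h5⟩
      · exact Or.inl (ih hjk h hy)
      · exact Or.inr ⟨z1, hz1, z', hz', p, q, h1, h2, h3, h4, ih hjk h5 hy⟩
    · rcases h with h | ⟨z1, hz1, z', hz', p, q, h1, h2, h3, h4, h5⟩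
      · exact Or.inr ⟨z, hz, z, hz, y, w, h, hy, Relation.ReflTransGen.refl, hw, Rch_refl _ _⟩
      · exact Or.inr ⟨z1, hz1, z, hz, p, w, h1, h2,
          h3.tail ⟨hz', hz, q, y, h4, h5, hy⟩, hw, Rch_refl _ _⟩

/-- the height bound -/
theorem Rch_height (hσ : Sgn σ) (hL : 0 ≤ L) (hρ : ∀ k, 0 ≤ ρ k)
    (hZ : ∀ k, ∀ z ∈ Z k, ∀ z' ∈ Z k, z ≠ z' → b k < nm (z - z'))
    (hT0 : 0 ≤ T 0)
    (hT : ∀ k, 2 * T k + 4 * ρ k + 2 * L ≤ T (k + 1))
    (hb : ∀ k, ((T k + 4 * ρ k + 2 * L : ℤ) : ℝ) ≤ (cc k - cc (k + 1)) * ((b k - 2 * ρ k - L : ℤ) : ℝ))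
    (k : ℕ) (x y : V d) (h : Rch σ L ρ Z k x y) :
    ((hh σ y - hh σ x : ℤ) : ℝ) + cc k * ((nm (y - x) : ℤ) : ℝ) ≤ ((T k : ℤ) : ℝ) := by
  have hTn : ∀ k, 0 ≤ T k := by
    intro k
    induction k with
    | zero => exact hT0
    | succ k ih => linarith [hT k, hρ k]
  induction k generalizing x y with
  | zero =>
    unfold Rch Kc at h
    rw [hh_sub] at h
    have h1 : nm (y - x) = nm (x - y) := nm_sub_comm _ _
    have h2 : cc 0 = 1 / 2 := by unfold cc; norm_num
    rw [h1, h2]
    have h3 : ((nm (x - y) : ℤ) : ℝ) ≤ 2 * ((hh σ x : ℝ) - hh σ y) := by exact_mod_cast h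
    have h4 : (0 : ℝ) ≤ T 0 := by exact_mod_cast hT0
    push_cast
    linarith
  | succ k ih =>
    have hc1 := cc_succ_le k
    have hc0 := cc_pos (k + 1)
    have hcle := cc_le (k + 1)
    unfold Rch at h
    rcases h with h | ⟨z, hz, z', hz', p, q, h1, h2, h3, h4, h5⟩
    · have h6 := ih x y h
      have h7 : (0 : ℝ) ≤ nm (y - x) := by exact_mod_cast nm_nonneg _
      have h8 : (T k : ℝ) ≤ T (k + 1) := by
        have : T k ≤ T (k + 1) := by linarith [hT k, hρ k, hTn k]
        exact_mod_cast this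
      nlinarith
    · -- along the chain of islands
      have key : ((hh σ z' - hh σ z : ℤ) : ℝ) + cc (k + 1) * ((nm (z' - z) : ℤ) : ℝ) ≤ 0 := by
        clear h1 h2 h4 h5 hz'
        induction h3 with
        | refl =>
          rw [sub_self, sub_self, nm_zero]; simp
        | @tail u v huv hstep ihc =>
          obtain ⟨hu, hv, q1, p1, g1, g2, g3⟩ := hstep
          have g4 := ih q1 p1 g2
          have g5 : ((hh σ v - hh σ u : ℤ) : ℝ) + cc (k + 1) * ((nm (v - u) : ℤ) : ℝ) ≤ 0 := by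
            by_cases huv2 : u = v
            · subst huv2
              rw [sub_self, sub_self, nm_zero]; simp
            · have g6 := hZ k u hu v hv huv2
              -- heights
              have e1 : hh σ v - hh σ u ≤ (hh σ p1 - hh σ q1) + (ρ k + L) + ρ k := by
                have := neg_nm_le_hh hσ (p1 - v)
                have h9 := hh_le_nm hσ (q1 - u)
                rw [hh_sub] at this h9
                linarith
              have e2 : nm (v - u) ≤ nm (p1 - q1) + (ρ k + L) + ρ k := by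
                have a1 := nm_sub_le v p1 u
                have a2 := nm_sub_le p1 q1 u
                rw [nm_sub_comm v p1] at a1
                linarith
              have e3 : b k - 2 * ρ k - L ≤ nm (p1 - q1) := by
                rw [nm_sub_comm u v] at g6
                linarith
              have E1 : ((hh σ v - hh σ u : ℤ) : ℝ) ≤ ((hh σ p1 - hh σ q1 : ℤ) : ℝ) + 2 * ρ k + L := by
                have : hh σ v - hh σ u ≤ (hh σ p1 - hh σ q1) + 2 * ρ k + L := by linarith
                exact_mod_cast this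
              have E2 : ((nm (v - u) : ℤ) : ℝ) ≤ ((nm (p1 - q1) : ℤ) : ℝ) + 2 * ρ k + L := by
                have : nm (v - u) ≤ nm (p1 - q1) + 2 * ρ k + L := by linarith
                exact_mod_cast this
              have E3 : ((b k - 2 * ρ k - L : ℤ) : ℝ) ≤ ((nm (p1 - q1) : ℤ) : ℝ) := by exact_mod_cast e3
              have E4 := hb k
              have E5 : ((T k + 4 * ρ k + 2 * L : ℤ) : ℝ) = (T k : ℝ) + 4 * ρ k + 2 * L := by push_cast; ring
              rw [E5] at E4
              have hρ0 : (0 : ℝ) ≤ ρ k := by exact_mod_cast hρ k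
              have hL0 : (0 : ℝ) ≤ L := by exact_mod_cast hL
              have E6 : (cc k - cc (k + 1)) * ((b k - 2 * ρ k - L : ℤ) : ℝ) ≤
                  (cc k - cc (k + 1)) * ((nm (p1 - q1) : ℤ) : ℝ) :=
                mul_le_mul_of_nonneg_left E3 (by linarith)
              have E7 : cc (k + 1) * ((nm (v - u) : ℤ) : ℝ) ≤
                  cc (k + 1) * (((nm (p1 - q1) : ℤ) : ℝ)) + (2 * ρ k + L) := by
                have := mul_le_mul_of_nonneg_left E2 hc0
                nlinarith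
              linarith
          have g7 : nm (v - z) ≤ nm (v - u) + nm (u - z) := nm_sub_le _ _ _
          have g8 : ((nm (v - z) : ℤ) : ℝ) ≤ ((nm (v - u) : ℤ) : ℝ) + ((nm (u - z) : ℤ) : ℝ) := by
            exact_mod_cast g7
          have g9 := mul_le_mul_of_nonneg_left g8 hc0
          push_cast at g5 ihc ⊢
          linarith
      have k1 := ih x p h1
      have k2 := ih q y h5
      -- combine
      have f1 : hh σ z - hh σ p ≤ ρ k + L := by
        have := neg_nm_le_hh hσ (p - z)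
        rw [hh_sub] at this
        linarith
      have f2 : hh σ q - hh σ z' ≤ ρ k := by
        have := hh_le_nm hσ (q - z')
        rw [hh_sub] at this
        linarith
      have f3 : nm (y - x) ≤ nm (y - q) + nm (z' - z) + nm (p - x) + (ρ k + L) + ρ k := by
        have a1 := nm_sub_le y q x
        have a2 := nm_sub_le q z' x
        have a3 := nm_sub_le z' z x
        have a4 := nm_sub_le z p x
        rw [nm_sub_comm z p] at a4
        linarith
      have F1 : (hh σ z : ℝ) - hh σ p ≤ ρ k + L := by exact_mod_cast f1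
      have F2 : (hh σ q : ℝ) - hh σ z' ≤ ρ k := by exact_mod_cast f2
      have F3 : ((nm (y - x) : ℤ) : ℝ) ≤ ((nm (y - q) : ℤ) : ℝ) + ((nm (z' - z) : ℤ) : ℝ) +
          ((nm (p - x) : ℤ) : ℝ) + (ρ k + L) + ρ k := by exact_mod_cast f3
      have F4 := mul_le_mul_of_nonneg_left F3 hc0
      have F5 : (T (k + 1) : ℝ) ≥ 2 * T k + 4 * ρ k + 2 * L := by exact_mod_cast hT k
      have hρ0 : (0 : ℝ) ≤ ρ k := by exact_mod_cast hρ k
      have hL0 : (0 : ℝ) ≤ L := by exact_mod_cast hL
      have n1 : (0 : ℝ) ≤ ((nm (y - q) : ℤ) : ℝ) := by exact_mod_cast nm_nonneg _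
      have n2 : (0 : ℝ) ≤ ((nm (p - x) : ℤ) : ℝ) := by exact_mod_cast nm_nonneg _
      have m1 := mul_le_mul_of_nonneg_right hc1 n1
      have m2 := mul_le_mul_of_nonneg_right hc1 n2
      have m3 : cc (k + 1) * (2 * ρ k + L) ≤ 2 * ρ k + L := by
        have := mul_le_mul_of_nonneg_right hcle (by positivity : (0 : ℝ) ≤ 2 * ρ k + L)
        linarith
      push_cast at k1 k2 key ⊢
      nlinarith

end chains

end Pool.Agent.H500R3.Pol
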