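import Pool.Agent.H500R3.Pol.Two

/-! Sparse levels of the set of bad cells, and the constants. -/

set_option autoImplicit false

namespace Pool.Agent.H500R3.Pol
open Finset

variable {d : ℕ}

/-- the points of `B` which survive `k` cleanings -/
def EE (a b : ℕ → ℤ) (B : Set (V d)) : ℕ → Set (V d)
  | 0 => B
  | k + 1 => {x | x ∈ EE a b B k ∧ ∃ y ∈ EE a b B k, a k < nm (x - y) ∧ nm (x - y) ≤ b k}

theorem EE_anti (a b : ℕ → ℤ) (B : Set (V d)) (k : ℕ) : EE a b B (k + 1) ⊆ EE a b B k :=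
  fun _ hx => hx.1

/-- the points removed at level `k` -/
def Rem (a b : ℕ → ℤ) (B : Set (V d)) (k : ℕ) : Set (V d) := EE a b B k \ EE a b B (k + 1)

/-- one center per cluster of level `k` -/
def ZZ (code : V d → ℕ) (a b : ℕ → ℤ) (B : Set (V d)) (k : ℕ) : Set (V d) :=
  {z | z ∈ Rem a b B k ∧ ∀ z' ∈ Rem a b B k, nm (z - z') ≤ a k → code z ≤ code z'}

theorem Rem_near {a b : ℕ → ℤ} {B : Set (V d)} {k : ℕ} {x y : V d} (hx : x ∈ Rem a b B k)
    (hy : y ∈ EE a b B k) (h : nm (x - y) ≤ b k) : nm (x - y) ≤ a k := by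
  by_contra hcon
  push Not at hcon
  exact hx.2 ⟨hx.1, y, hy, hcon, h⟩

theorem ZZ_sep {code : V d → ℕ} (hcode : Function.Injective code) {a b : ℕ → ℤ} {B : Set (V d)} (k : ℕ) :
    ∀ z ∈ ZZ code a b B k, ∀ z' ∈ ZZ code a b B k, z ≠ z' → b k < nm (z - z') := by
  intro z hz z' hz' hne
  by_contra hcon
  push Not at hcon
  have h1 := Rem_near hz.1 hz'.1.1 hcon
  have h2 := hz.2 z' hz'.1 h1
  rw [nm_sub_comm] at h1
  have h3 := hz'.2 z hz.1 h1
  exact hne (hcode (le_antisymm h2 h3))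

theorem ZZ_cover {code : V d → ℕ} {a b : ℕ → ℤ} {B : Set (V d)} (ha : ∀ k, 0 ≤ a k)
    (hab : ∀ k, 2 * a k ≤ b k) {c : V d} (hc : c ∈ B) (hn : ∃ n, c ∉ EE a b B n) :
    ∃ k, ∃ z ∈ ZZ code a b B k, nm (c - z) ≤ a k := by
  classical
  set n := Nat.find hn with hnd
  have hn1 : c ∉ EE a b B n := Nat.find_spec hn
  have hn0 : n ≠ 0 := by
    intro h
    rw [h] at hn1
    exact hn1 hc
  obtain ⟨k, hk⟩ := Nat.exists_eq_succ_of_ne_zero hn0
  have hck : c ∈ EE a b B k := by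
    by_contra hcon
    have := Nat.find_min' hn hcon
    omega
  have hcR : c ∈ Rem a b B k := ⟨hck, by rw [← Nat.succ_eq_add_one, ← hk]; exact hn1⟩
  -- choose the minimal code
  have hex : ∃ m, ∃ z ∈ Rem a b B k, nm (c - z) ≤ a k ∧ code z = m :=
    ⟨code c, c, hcR, by rw [sub_self, nm_zero]; exact ha k, rfl⟩
  obtain ⟨z, hz1, hz2, hz3⟩ := Nat.find_spec hex
  refine ⟨k, z, ⟨hz1, ?_⟩, hz2⟩
  intro z' hz' hzz
  have h1 : nm (c - z') ≤ b k := by
    have := nm_sub_le c z z'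
    have := hab k
    linarith
  have h2 := Rem_near hcR hz'.1 h1
  rw [hz3]
  exact Nat.find_min' hex ⟨z', hz', h2, rfl⟩

/-! ### the constants -/

section const

variable (d)

/-- the base -/
def Bs : ℤ := 1000 * (d : ℤ) ^ 2

/-- the scales -/
def XX (k : ℕ) : ℤ := Bs d ^ ((k + 1) ^ 2)

/-- cluster diameters -/
def ca (k : ℕ) : ℤ := 5 * XX d k
/-- separation -/
def cb (k : ℕ) : ℤ := XX d (k + 1)
/-- radii -/
def cR (k : ℕ) : ℤ := 5 * XX d k + 3 * d
/-- outer radii -/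
def cρ (k : ℕ) : ℤ := 6 * XX d k + 4 * d + 1
/-- jump range -/
def cL : ℤ := d + 2

variable {d}

theorem Bs_ge (hd : 1 ≤ d) : 1000 * (d : ℤ) ≤ Bs d := by
  unfold Bs
  have : (1 : ℤ) ≤ d := by exact_mod_cast hd
  nlinarith

theorem Bs_pos (hd : 1 ≤ d) : 1000 ≤ Bs d := by
  have := Bs_ge hd
  have : (1 : ℤ) ≤ d := by exact_mod_cast hd
  linarith

theorem XX_pos (hd : 1 ≤ d) (k : ℕ) : 1 ≤ XX d k := by
  unfold XX
  exact one_le_pow₀ (by linarith [Bs_pos hd])

theorem XX_succ (k : ℕ) : XX d (k + 1) = XX d k * Bs d ^ (2 * k + 3) := by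
  unfold XX
  rw [← pow_add]
  congr 1
  ring

theorem XX_step (hd : 1 ≤ d) (k : ℕ) : XX d k * Bs d ≤ XX d (k + 1) := by
  rw [XX_succ]
  apply mul_le_mul_of_nonneg_left _ (by linarith [XX_pos hd k])
  exact le_self_pow₀ (by linarith [Bs_pos hd]) (by omega)

theorem XX_step2 (hd : 1 ≤ d) (k : ℕ) : XX d k * (1000000 * d * 2 ^ k) ≤ XX d (k + 1) := by
  rw [XX_succ]
  apply mul_le_mul_of_nonneg_left _ (by linarith [XX_pos hd k])
  have h1 : (2 : ℤ) ^ k ≤ Bs d ^ (2 * k) := by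
    rw [pow_mul]
    apply pow_le_pow_left₀ (by norm_num)
    nlinarith [Bs_pos hd]
  have h2 : 1000000 * (d : ℤ) ≤ Bs d ^ 3 := by
    have h3 := Bs_ge hd
    have h4 := Bs_pos hd
    have h5 : (1 : ℤ) ≤ d := by exact_mod_cast hd
    calc 1000000 * (d : ℤ) ≤ (1000 * d) * 1000 * 1000 := by nlinarith
      _ ≤ Bs d * Bs d * Bs d := by
          apply mul_le_mul _ h4 (by norm_num) (by nlinarith)
          exact mul_le_mul h3 h4 (by norm_num) (by linarith)
      _ = Bs d ^ 3 := by ring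
  calc 1000000 * (d : ℤ) * 2 ^ k ≤ Bs d ^ 3 * Bs d ^ (2 * k) := by
        apply mul_le_mul h2 h1 (by positivity)
        apply pow_nonneg
        linarith [Bs_pos hd]
    _ = Bs d ^ (2 * k + 3) := by rw [← pow_add]; congr 1; ring

/-- all the hypotheses hold -/
theorem hyp (hd : 1 ≤ d) {s : ℤ} (hs : 1 ≤ s) {code : V d → ℕ} (hcode : Function.Injective code)
    {G B : Set (V d)} (hG : ∀ c, c ∉ B → ∃ w ∈ G, pr s w = c)
    (hB : ∀ c ∈ B, ∃ n, c ∉ EE (ca d) (cb d) B n) :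
    Hyp (d := d) s (cL d) (cρ d) (cb d) (XX d) (cR d) (ca d) (ZZ code (ca d) (cb d) B) G B := by
  have hd1 : (1 : ℤ) ≤ d := by exact_mod_cast hd
  have hX := XX_pos hd
  have hstep : ∀ k, 1000 * d * XX d k ≤ XX d (k + 1) := by
    intro k
    have h1 := XX_step hd k
    have h2 := Bs_ge hd
    have h3 := mul_le_mul_of_nonneg_left h2 (by linarith [hX k] : (0 : ℤ) ≤ XX d k)
    linarith
  refine ⟨hd, hs, ?_, ?_, ?_, ?_, ?_, ?_, ?_, ?_, ZZ_sep hcode, ?_, hG⟩
  · unfold cL; linarith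
  · intro k; unfold cR cρ; linarith
  · intro k; unfold ca cR; linarith
  · intro k; unfold ca; linarith [hX k]
  · linarith [hX 0]
  · intro k
    unfold cρ cL
    have := hstep k
    have := hX k
    nlinarith
  · intro k
    have h1 := XX_step2 hd k
    have h2 := hX k
    have h3 : cc k - cc (k + 1) = (1 / 8) * (1 / 2 : ℝ) ^ k := by unfold cc; ring
    rw [h3]
    have h4 : ((1 : ℝ) / 2) ^ k * 2 ^ k = 1 := by
      rw [← mul_pow]; norm_num
    have h5 : (0 : ℝ) < (1 / 2) ^ k := by positivity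
    have h5' : ((1 : ℝ) / 2) ^ k ≤ 1 := pow_le_one₀ (by norm_num) (by norm_num)
    have h6 : ((XX d k : ℤ) : ℝ) * (1000000 * d * 2 ^ k) ≤ XX d (k + 1) := by exact_mod_cast h1
    have h7 : (1 : ℝ) ≤ XX d k := by exact_mod_cast h2
    have h8 : (1 : ℝ) ≤ d := by exact_mod_cast hd
    unfold cρ cb cL
    push_cast
    have h9 : (1 / 8) * (1 / 2 : ℝ) ^ k * (((XX d k : ℤ) : ℝ) * (1000000 * d * 2 ^ k)) ≤
        (1 / 8) * (1 / 2 : ℝ) ^ k * XX d (k + 1) := mul_le_mul_of_nonneg_left h6 (by positivity)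
    have h10 : (1 / 8) * (1 / 2 : ℝ) ^ k * (((XX d k : ℤ) : ℝ) * (1000000 * d * 2 ^ k)) =
        125000 * d * XX d k := by
      calc _ = 125000 * d * XX d k * ((1 / 2 : ℝ) ^ k * 2 ^ k) := by ring
        _ = _ := by rw [h4, mul_one]
    rw [h10] at h9
    have h11 : (d : ℝ) ≤ d * XX d k := by nlinarith
    have h12 : (XX d k : ℝ) ≤ d * XX d k := by nlinarith
    have h13 : (1 / 8) * (1 / 2 : ℝ) ^ k * (2 * (6 * (XX d k : ℝ) + 4 * d + 1) + (d + 2)) ≤
        2 * (6 * (XX d k : ℝ) + 4 * d + 1) + (d + 2) := by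
      have : (1 / 8) * (1 / 2 : ℝ) ^ k ≤ 1 := by nlinarith
      have h14 : (0 : ℝ) ≤ 2 * (6 * (XX d k : ℝ) + 4 * d + 1) + (d + 2) := by positivity
      nlinarith
    nlinarith
  · intro k
    unfold cR cb
    have := hstep k
    have := hX k
    nlinarith
  · intro c hc
    apply ZZ_cover _ _ hc (hB c hc)
    · intro k; unfold ca; linarith [hX k]
    · intro k
      unfold ca cb
      have := hstep k
      have := hX k
      nlinarith

end const

end Pool.Agent.H500R3.Pol
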