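import Pool.Agent.H500R3.Pol.Cfg
import Pool.Agent.H500R3.Prod.Basic

/-! Probability estimates. -/

set_option autoImplicit false

namespace Pool.Agent.H500R3.Pol
open Finset MeasureTheory ProbabilityTheory
open scoped ENNReal
open Pool.Agent.H500R3.Prod (Dep Pm Pm_indep)

variable {d : ℕ}

/-- sites whose cell is close to `c` -/
def reg (s : ℤ) (c : V d) (n : ℤ) : Set (V d) := {u | nm (pr s u - c) ≤ n}

theorem reg_finite {s : ℤ} (hs : 1 ≤ s) (c : V d) (n : ℤ) : (reg s c n).Finite := by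
  apply Set.Finite.subset (Set.finite_Icc (fun i => s * (c i - n)) (fun i => s * (c i + n + 1)))
  intro u hu
  have h0 : 0 < s := by omega
  have key : ∀ i, s * (c i - n) ≤ u i ∧ u i ≤ s * (c i + n + 1) := by
    intro i
    have h1 : |u i / s - c i| ≤ n := le_trans (abs_le_nm (pr s u - c) i) hu
    rw [abs_le] at h1
    have a1 := Int.mul_ediv_add_emod (u i) s
    have a2 := Int.emod_nonneg (u i) h0.ne'
    have a3 := Int.emod_lt_of_pos (u i) h0
    constructor <;> nlinarith [h1.1, h1.2]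
  exact ⟨fun i => (key i).1, fun i => (key i).2⟩

theorem ediv_near {s : ℤ} (hs : 1 ≤ s) {a b M : ℤ} (h : |a - b| ≤ M * s) : |a / s - b / s| ≤ M + 1 := by
  have h0 : 0 < s := by omega
  have a1 := Int.mul_ediv_add_emod a s
  have a2 := Int.emod_nonneg a h0.ne'
  have a3 := Int.emod_lt_of_pos a h0
  have b1 := Int.mul_ediv_add_emod b s
  have b2 := Int.emod_nonneg b h0.ne'
  have b3 := Int.emod_lt_of_pos b h0
  rw [abs_le] at h ⊢
  constructor
  · by_contra hcon
    push Not at hcon
    have : a / s - b / s ≤ -(M + 2) := by linarith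
    have := mul_le_mul_of_nonneg_left this h0.le
    nlinarith [h.1]
  · by_contra hcon
    push Not at hcon
    have : M + 2 ≤ a / s - b / s := by linarith
    have := mul_le_mul_of_nonneg_left this h0.le
    nlinarith [h.2]

theorem nm_le_card {x : V d} {M : ℤ} (h : ∀ i, |x i| ≤ M) : nm x ≤ d * M := by
  unfold nm
  calc ∑ i, |x i| ≤ ∑ _i : Fin d, M := Finset.sum_le_sum (fun i _ => h i)
    _ = d * M := by simp

/-- the event that the cell `c` survives `k` cleanings -/
def ev (s : ℤ) (k : ℕ) (c : V d) : Set (V d → Fin 3) := {ω | c ∈ EE (ca d) (cb d) (BB s ω) k}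

/-- radius of dependence -/
def rr (d : ℕ) (k : ℕ) : ℤ := d * (5 * d + 3) + ∑ j ∈ Finset.range k, cb d j

theorem bad_dep {s : ℤ} (hs : 1 ≤ s) (c : V d) : Dep (reg s c (d * (5 * d + 3))) (ev s 0 c) := by
  have hd0 : (0 : ℤ) ≤ d := Int.natCast_nonneg d
  have hmem : ∀ w u : V d, pr s w = c → (∀ i, |u i - w i| ≤ (5 * d + 2) * s) →
      u ∈ reg s c (d * (5 * d + 3)) := by
    intro w u hw hu
    show nm (pr s u - c) ≤ _
    rw [← hw]
    apply nm_le_card
    intro i
    have := ediv_near hs (hu i)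
    show |u i / s - w i / s| ≤ _
    linarith
  have main : ∀ ω ω' : V d → Fin 3, (∀ i ∈ reg s c (d * (5 * d + 3)), ω i = ω' i) →
      c ∈ BB s ω → c ∈ BB s ω' := by
    intro ω ω' h hc
    rcases hc with hc | ⟨x, hx, hx2⟩
    · left
      rintro ⟨w, hw, hwc⟩
      apply hc
      refine ⟨w, ⟨?_, ?_⟩, hwc⟩
      · rw [h w]
        · exact hw.1
        · apply hmem w w hwc
          intro i
          rw [sub_self, abs_zero]
          positivity
      · intro i t ht u hu
        rw [h u]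
        · exact hw.2 i t ht u hu
        · apply hmem w u hwc
          intro j
          have h1 := hu j
          have h2 : |(Pi.single i t : V d) j| ≤ (3 * d + 1) * s := by
            by_cases hj : j = i
            · subst hj; rw [Pi.single_eq_same]; exact ht
            · rw [Pi.single_eq_of_ne hj, abs_zero]; positivity
          rw [Pi.add_apply] at h1
          have h3 : u j - w j = (u j - (w j + (Pi.single i t : V d) j)) + (Pi.single i t : V d) j := by ring
          rw [h3]
          refine le_trans (abs_add_le _ _) ?_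
          nlinarith
    · right
      refine ⟨x, hx, ?_⟩
      have : Occ ω ∩ bx x (2 * d + 1) = Occ ω' ∩ bx x (2 * d + 1) := by
        ext u
        have h5 : u ∈ bx x (2 * d + 1) → ω u = ω' u := by
          intro hu
          apply h u
          apply hmem x u hx
          intro i
          have := hu i
          nlinarith
        constructor
        · rintro ⟨h6, h7⟩
          refine ⟨?_, h7⟩
          show ω' u = 0
          rw [← h5 h7]
          exact h6
        · rintro ⟨h6, h7⟩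
          refine ⟨?_, h7⟩
          show ω u = 0
          rw [h5 h7]
          exact h6
      rw [← this]
      exact hx2
  intro ω ω' h
  exact ⟨main ω ω' h, main ω' ω (fun i hi => (h i hi).symm)⟩

theorem rr_nonneg (hd : 1 ≤ d) (k : ℕ) : 0 ≤ rr d k := by
  unfold rr
  have h1 : ∀ j ∈ Finset.range k, 0 ≤ cb d j := by
    intro j _
    unfold cb
    linarith [XX_pos hd (j + 1)]
  have := Finset.sum_nonneg h1
  positivity

theorem ev_dep (hd : 1 ≤ d) {s : ℤ} (hs : 1 ≤ s) (k : ℕ) (c : V d) :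
    Dep (reg s c (rr d k)) (ev s k c) := by
  induction k generalizing c with
  | zero =>
    have : rr d 0 = d * (5 * d + 3) := by unfold rr; simp
    rw [this]
    exact bad_dep hs c
  | succ k ih =>
    have hrr : rr d (k + 1) = rr d k + cb d k := by
      unfold rr
      rw [Finset.sum_range_succ]
      ring
    have hcb : 0 ≤ cb d k := by unfold cb; linarith [XX_pos hd (k + 1)]
    have hsub : ∀ y : V d, nm (c - y) ≤ cb d k → reg s y (rr d k) ⊆ reg s c (rr d (k + 1)) := by
      intro y hy u hu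
      show nm (pr s u - c) ≤ _
      have h1 := nm_sub_le (pr s u) y c
      rw [nm_sub_comm y c] at h1
      have h2 : nm (pr s u - y) ≤ rr d k := hu
      rw [hrr]
      linarith
    have main : ∀ ω ω' : V d → Fin 3, (∀ i ∈ reg s c (rr d (k + 1)), ω i = ω' i) →
        ω ∈ ev s (k + 1) c → ω' ∈ ev s (k + 1) c := by
      intro ω ω' h hc
      obtain ⟨h1, y, h2, h3, h4⟩ := hc
      have h5 : ω' ∈ ev s k c := (ih c ω ω' (fun i hi => h i
        (hsub c (by rw [sub_self, nm_zero]; exact hcb) hi))).1 h1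
      have h6 : ω' ∈ ev s k y := (ih y ω ω' (fun i hi => h i (hsub y h4 hi))).1 h2
      exact ⟨h5, y, h6, h3, h4⟩
    intro ω ω' h
    exact ⟨main ω ω' h, main ω' ω (fun i hi => (h i hi).symm)⟩

theorem rr_le (hd : 1 ≤ d) (k : ℕ) : rr d k ≤ 2 * XX d k := by
  induction k with
  | zero =>
    have hd1 : (1 : ℤ) ≤ d := by exact_mod_cast hd
    unfold rr XX Bs
    simp only [Finset.range_zero, Finset.sum_empty]
    norm_num
    nlinarith
  | succ k ih =>
    have hrr : rr d (k + 1) = rr d k + cb d k := by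
      unfold rr
      rw [Finset.sum_range_succ]
      ring
    rw [hrr]
    unfold cb
    have h1 := XX_step hd k
    have h2 := Bs_pos hd
    have h3 := XX_pos hd k
    nlinarith

/-- finite boxes -/
noncomputable def bxF (x : V d) (K : ℕ) : Finset (V d) := Fintype.piFinset (fun i => Finset.Icc (x i - K) (x i + K))

theorem mem_bxF {x y : V d} {K : ℕ} : y ∈ bxF x K ↔ y ∈ bx x K := by
  unfold bxF bx
  rw [Fintype.mem_piFinset]
  constructor
  · intro h i
    have := Finset.mem_Icc.1 (h i)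
    rw [abs_le]
    constructor <;> linarith
  · intro h i
    have := abs_le.1 (h i)
    rw [Finset.mem_Icc]
    constructor <;> linarith

theorem card_bxF (x : V d) (K : ℕ) : (bxF x K).card = (2 * K + 1) ^ d := by
  unfold bxF
  rw [Fintype.card_piFinset]
  have : ∀ i ∈ (Finset.univ : Finset (Fin d)), (Finset.Icc (x i - K) (x i + K)).card = 2 * K + 1 := by
    intro i _
    rw [Int.card_Icc]
    omega
  rw [Finset.prod_congr rfl this, Finset.prod_const, Finset.card_univ, Fintype.card_fin]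

theorem mem_bxF_of_nm {x y : V d} {K : ℕ} (h : nm (x - y) ≤ K) : y ∈ bxF x K := by
  rw [mem_bxF]
  intro i
  have := abs_le_nm (x - y) i
  rw [Pi.sub_apply, abs_sub_comm] at this
  linarith

/-- the bound at level `k` -/
noncomputable def vv (d : ℕ) (η : ℝ) (k : ℕ) : ℝ := η / ((Bs d : ℤ) : ℝ) ^ (4 * d * (k + 10) ^ 2)

theorem BsR (hd : 1 ≤ d) : (1000 : ℝ) ≤ ((Bs d : ℤ) : ℝ) := by exact_mod_cast Bs_pos hd

theorem vv_nonneg (hd : 1 ≤ d) {η : ℝ} (h0 : 0 ≤ η) (k : ℕ) : 0 ≤ vv d η k := by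
  unfold vv
  have := BsR hd
  positivity

theorem vv_rec (hd : 1 ≤ d) {η : ℝ} (h0 : 0 ≤ η) (h1 : η ≤ 1) (k : ℕ) :
    (((2 * (cb d k).toNat + 1) ^ d : ℕ) : ℝ) * (vv d η k * vv d η k) ≤ vv d η (k + 1) := by
  have hB := BsR hd
  set β : ℝ := ((Bs d : ℤ) : ℝ) with hβ
  have hβ0 : 0 < β := by linarith
  have hβ1 : 1 ≤ β := by linarith
  have h2 : (((2 * (cb d k).toNat + 1) ^ d : ℕ) : ℝ) ≤ β ^ (d * ((k + 2) ^ 2 + 1)) := by
    push_cast
    rw [mul_comm d, pow_mul]
    apply pow_le_pow_left₀ (by positivity)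
    have h3 : (((cb d k).toNat : ℕ) : ℝ) = β ^ ((k + 2) ^ 2) := by
      have h4 : (((cb d k).toNat : ℕ) : ℤ) = cb d k := by
        apply Int.toNat_of_nonneg
        unfold cb
        linarith [XX_pos hd (k + 1)]
      have h5 : (((cb d k).toNat : ℕ) : ℝ) = ((cb d k : ℤ) : ℝ) := by exact_mod_cast h4
      rw [h5]
      unfold cb XX
      push_cast
      rw [hβ]
    have e : β ^ ((k + 2) ^ 2 + 1) = β ^ ((k + 2) ^ 2) * β := pow_succ _ _
    rw [h3, e]
    have h6 : 1 ≤ β ^ ((k + 2) ^ 2) := one_le_pow₀ hβ1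
    nlinarith
  unfold vv
  rw [← hβ]
  have e1 : η / β ^ (4 * d * (k + 10) ^ 2) * (η / β ^ (4 * d * (k + 10) ^ 2)) =
      (η * η) / β ^ (8 * d * (k + 10) ^ 2) := by
    rw [div_mul_div_comm, ← pow_add]
    congr 2
    ring
  rw [e1]
  calc (((2 * (cb d k).toNat + 1) ^ d : ℕ) : ℝ) * ((η * η) / β ^ (8 * d * (k + 10) ^ 2))
      ≤ β ^ (d * ((k + 2) ^ 2 + 1)) * (η / β ^ (8 * d * (k + 10) ^ 2)) := by
        apply mul_le_mul h2 _ (by positivity) (by positivity)
        apply div_le_div_of_nonneg_right _ (by positivity)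
        nlinarith
    _ ≤ η / β ^ (4 * d * (k + 1 + 10) ^ 2) := by
        rw [← mul_div_assoc, div_le_div_iff₀ (by positivity) (by positivity)]
        have e2 : β ^ (d * ((k + 2) ^ 2 + 1)) * η * β ^ (4 * d * (k + 1 + 10) ^ 2) =
            η * β ^ (d * ((k + 2) ^ 2 + 1) + 4 * d * (k + 1 + 10) ^ 2) := by
          rw [pow_add]; ring
        rw [e2]
        apply mul_le_mul_of_nonneg_left _ h0
        apply pow_le_pow_right₀ hβ1
        have : (k + 2) ^ 2 + 1 + 4 * (k + 1 + 10) ^ 2 ≤ 8 * (k + 10) ^ 2 := by ring_nf; omega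
        calc d * ((k + 2) ^ 2 + 1) + 4 * d * (k + 1 + 10) ^ 2
            = d * ((k + 2) ^ 2 + 1 + 4 * (k + 1 + 10) ^ 2) := by ring
          _ ≤ d * (8 * (k + 10) ^ 2) := Nat.mul_le_mul_left d this
          _ = 8 * d * (k + 10) ^ 2 := by ring

theorem ev_prob (hd : 1 ≤ d) {s : ℤ} (hs : 1 ≤ s) (μ : Measure (Fin 3)) [IsProbabilityMeasure μ]
    {η : ℝ} (h0 : 0 ≤ η) (h1 : η ≤ 1)
    (hbad : ∀ c : V d, Pm μ (ev s 0 c) ≤ ENNReal.ofReal (vv d η 0)) (k : ℕ) (c : V d) :
    Pm μ (ev s k c) ≤ ENNReal.ofReal (vv d η k) := by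
  classical
  induction k generalizing c with
  | zero => exact hbad c
  | succ k ih =>
    set N : ℕ := (cb d k).toNat with hN
    have hcb : (N : ℤ) = cb d k := by
      apply Int.toNat_of_nonneg
      unfold cb
      linarith [XX_pos hd (k + 1)]
    have hsub : ev s (k + 1) c ⊆ ⋃ y ∈ (bxF c N).filter (fun y => ca d k < nm (c - y)),
        (ev s k c ∩ ev s k y) := by
      intro ω hω
      obtain ⟨g1, y, g2, g3, g4⟩ := hω
      rw [Set.mem_iUnion₂]
      refine ⟨y, ?_, g1, g2⟩
      rw [Finset.mem_filter]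
      exact ⟨mem_bxF_of_nm (by rw [hcb]; exact g4), g3⟩
    calc Pm μ (ev s (k + 1) c) ≤ Pm μ (⋃ y ∈ (bxF c N).filter (fun y => ca d k < nm (c - y)),
          (ev s k c ∩ ev s k y)) := measure_mono hsub
      _ ≤ ∑ y ∈ (bxF c N).filter (fun y => ca d k < nm (c - y)), Pm μ (ev s k c ∩ ev s k y) :=
          measure_biUnion_finset_le _ _
      _ ≤ ∑ _y ∈ (bxF c N).filter (fun y => ca d k < nm (c - y)),
            ENNReal.ofReal (vv d η k * vv d η k) := by
          apply Finset.sum_le_sum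
          intro y hy
          rw [Finset.mem_filter] at hy
          have hdc : Dep (((reg_finite hs c (rr d k)).toFinset : Finset (V d)) : Set (V d)) (ev s k c) := by
            rw [Set.Finite.coe_toFinset]; exact ev_dep hd hs k c
          have hdy : Dep (((reg_finite hs y (rr d k)).toFinset : Finset (V d)) : Set (V d)) (ev s k y) := by
            rw [Set.Finite.coe_toFinset]; exact ev_dep hd hs k y
          have hdisj : Disjoint (reg_finite hs c (rr d k)).toFinset (reg_finite hs y (rr d k)).toFinset := by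
            rw [Finset.disjoint_left]
            intro u hu hu2
            rw [Set.Finite.mem_toFinset] at hu hu2
            have g1 : nm (pr s u - c) ≤ rr d k := hu
            have g2 : nm (pr s u - y) ≤ rr d k := hu2
            have g3 := nm_sub_le c (pr s u) y
            rw [nm_sub_comm c (pr s u)] at g3
            have g4 := rr_le hd k
            have g5 := hy.2
            unfold ca at g5
            have g6 := XX_pos hd k
            linarith
          rw [Pm_indep μ hdisj hdc hdy, ENNReal.ofReal_mul (vv_nonneg hd h0 k)]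
          exact mul_le_mul' (ih c) (ih y)
      _ ≤ (((2 * N + 1) ^ d : ℕ) : ℝ≥0∞) * ENNReal.ofReal (vv d η k * vv d η k) := by
          rw [Finset.sum_const, nsmul_eq_mul]
          apply mul_le_mul' _ le_rfl
          have : ((bxF c N).filter (fun y => ca d k < nm (c - y))).card ≤ (2 * N + 1) ^ d := by
            rw [← card_bxF c N]
            exact Finset.card_filter_le _ _
          exact_mod_cast this
      _ = ENNReal.ofReal ((((2 * N + 1) ^ d : ℕ) : ℝ) * (vv d η k * vv d η k)) := by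
          rw [ENNReal.ofReal_mul (Nat.cast_nonneg _), ENNReal.ofReal_natCast]
      _ ≤ ENNReal.ofReal (vv d η (k + 1)) := ENNReal.ofReal_le_ofReal (vv_rec hd h0 h1 k)

/-- sum over the levels -/
theorem level_sum (hd : 1 ≤ d) {η : ℝ} (h0 : 0 ≤ η) (k : ℕ) :
    (((2 * (6 * XX d k + 4 * d).toNat + 1) ^ d : ℕ) : ℝ) * vv d η k ≤ η * (1 / 2) ^ k := by
  have hB := BsR hd
  set β : ℝ := ((Bs d : ℤ) : ℝ) with hβ
  have hβ0 : 0 < β := by linarith
  have hβ1 : 1 ≤ β := by linarith
  have hd1 : (1 : ℝ) ≤ d := by exact_mod_cast hd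
  have hBd : 1000 * (d : ℝ) ≤ β := by
    have := Bs_ge hd
    rw [hβ]
    exact_mod_cast this
  have h2 : (((2 * (6 * XX d k + 4 * d).toNat + 1) ^ d : ℕ) : ℝ) ≤ β ^ (d * ((k + 1) ^ 2 + 1)) := by
    push_cast
    rw [mul_comm d, pow_mul]
    apply pow_le_pow_left₀ (by positivity)
    have h3 : (((6 * XX d k + 4 * d).toNat : ℕ) : ℝ) = 6 * β ^ ((k + 1) ^ 2) + 4 * d := by
      have h4 : (((6 * XX d k + 4 * d).toNat : ℕ) : ℤ) = 6 * XX d k + 4 * d := by
        apply Int.toNat_of_nonneg
        have := XX_pos hd k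
        positivity
      have h5 : (((6 * XX d k + 4 * d).toNat : ℕ) : ℝ) = ((6 * XX d k + 4 * d : ℤ) : ℝ) := by
        exact_mod_cast h4
      rw [h5]
      unfold XX
      push_cast
      rw [hβ]
    have e : β ^ ((k + 1) ^ 2 + 1) = β ^ ((k + 1) ^ 2) * β := pow_succ _ _
    rw [h3, e]
    have h6 : 1 ≤ β ^ ((k + 1) ^ 2) := one_le_pow₀ hβ1
    have h7 : 20 * β ^ ((k + 1) ^ 2) ≤ 20 * β ^ ((k + 1) ^ 2) * d := by nlinarith
    have h8 : 1000 * (β ^ ((k + 1) ^ 2) * d) ≤ β ^ ((k + 1) ^ 2) * β := by nlinarith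
    nlinarith
  unfold vv
  rw [← hβ]
  have h7 : (2 : ℝ) ^ k ≤ β ^ k := pow_le_pow_left₀ (by norm_num) (by linarith) k
  have h8 : β ^ (d * ((k + 1) ^ 2 + 1)) * β ^ k ≤ β ^ (4 * d * (k + 10) ^ 2) := by
    rw [← pow_add]
    apply pow_le_pow_right₀ hβ1
    have : (k + 1) ^ 2 + 1 + k ≤ 4 * (k + 10) ^ 2 := by ring_nf; omega
    calc d * ((k + 1) ^ 2 + 1) + k ≤ d * ((k + 1) ^ 2 + 1) + d * k := by
          have : k ≤ d * k := Nat.le_mul_of_pos_left k (by omega)
          omega
      _ = d * ((k + 1) ^ 2 + 1 + k) := by ring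
      _ ≤ d * (4 * (k + 10) ^ 2) := Nat.mul_le_mul_left d this
      _ = 4 * d * (k + 10) ^ 2 := by ring
  calc (((2 * (6 * XX d k + 4 * d).toNat + 1) ^ d : ℕ) : ℝ) * (η / β ^ (4 * d * (k + 10) ^ 2))
      ≤ β ^ (d * ((k + 1) ^ 2 + 1)) * (η / β ^ (4 * d * (k + 10) ^ 2)) :=
        mul_le_mul_of_nonneg_right h2 (by positivity)
    _ = η * (β ^ (d * ((k + 1) ^ 2 + 1)) / β ^ (4 * d * (k + 10) ^ 2)) := by ring
    _ ≤ η * (1 / 2) ^ k := by
        apply mul_le_mul_of_nonneg_left _ h0
        rw [div_le_iff₀ (by positivity), one_div, inv_pow]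
        rw [inv_mul_eq_div, le_div_iff₀ (by positivity)]
        calc β ^ (d * ((k + 1) ^ 2 + 1)) * 2 ^ k ≤ β ^ (d * ((k + 1) ^ 2 + 1)) * β ^ k :=
              mul_le_mul_of_nonneg_left h7 (by positivity)
          _ ≤ _ := h8

end Pool.Agent.H500R3.Pol
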