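import Pool.Agent.H500R3.Pol.Det

/-! Threshold two closure of few sites. -/

set_option autoImplicit false

namespace Pool.Agent.H500R3.Pol
open Finset

variable {d : ℕ}

/-- the closure under threshold two -/
inductive Cl (X : Set (V d)) : V d → Prop
  | base {x : V d} : x ∈ X → Cl X x
  | step {x y1 y2 : V d} : y1 ≠ y2 → nm (y1 - x) = 1 → nm (y2 - x) = 1 → Cl X y1 → Cl X y2 → Cl X x

theorem Cl_mono {X Y : Set (V d)} (h : X ⊆ Y) {x : V d} (hx : Cl X x) : Cl Y x := by
  induction hx with
  | base hx => exact Cl.base (h hx)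
  | step h1 h2 h3 _ _ ih1 ih2 => exact Cl.step h1 h2 h3 ih1 ih2

theorem Cl_empty {x : V d} (hx : Cl (∅ : Set (V d)) x) : False := by
  induction hx with
  | base hx => exact hx
  | step _ _ _ _ _ ih1 _ => exact ih1

theorem nb_coord {x y : V d} (h : nm (y - x) = 1) (i : Fin d) : |y i - x i| ≤ 1 := by
  have := abs_le_nm (y - x) i
  rw [Pi.sub_apply] at this
  linarith

theorem nb_eq_of_lt {x y : V d} (h : nm (y - x) = 1) (i : Fin d) (hi : y i < x i) :
    y = x + Pi.single i (-1) := by
  obtain ⟨j, hj⟩ := nm_eq_one h
  by_cases hij : i = j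
  · subst hij
    rcases hj with hj | hj
    · have := congrFun hj i
      rw [Pi.sub_apply, Pi.single_eq_same] at this
      linarith
    · rw [← hj]; abel
  · have : (y - x) i = 0 := by
      rcases hj with hj | hj <;> rw [hj, Pi.single_eq_of_ne hij]
    rw [Pi.sub_apply] at this
    linarith

theorem nb_eq_of_gt {x y : V d} (h : nm (y - x) = 1) (i : Fin d) (hi : x i < y i) :
    y = x + Pi.single i 1 := by
  obtain ⟨j, hj⟩ := nm_eq_one h
  by_cases hij : i = j
  · subst hij
    rcases hj with hj | hj
    · rw [← hj]; abel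
    · have := congrFun hj i
      rw [Pi.sub_apply, Pi.single_eq_same] at this
      linarith
  · have : (y - x) i = 0 := by
      rcases hj with hj | hj <;> rw [hj, Pi.single_eq_of_ne hij]
    rw [Pi.sub_apply] at this
    linarith

/-- a gap of two layers separates the closure -/
theorem Cl_gap {X : Set (V d)} {i : Fin d} {t : ℤ} (hX : ∀ y ∈ X, y i ≤ t ∨ t + 3 ≤ y i) {x : V d}
    (hx : Cl X x) : (x i ≤ t ∧ Cl {y | y ∈ X ∧ y i ≤ t} x) ∨
      (t + 3 ≤ x i ∧ Cl {y | y ∈ X ∧ t + 3 ≤ y i} x) := by
  induction hx with
  | @base x hx =>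
    rcases hX x hx with h | h
    · exact Or.inl ⟨h, Cl.base ⟨hx, h⟩⟩
    · exact Or.inr ⟨h, Cl.base ⟨hx, h⟩⟩
  | @step x y1 y2 hne h1 h2 _ _ ih1 ih2 =>
    have b1 := abs_le.1 (nb_coord h1 i)
    have b2 := abs_le.1 (nb_coord h2 i)
    rcases ih1 with ⟨a1, c1⟩ | ⟨a1, c1⟩ <;> rcases ih2 with ⟨a2, c2⟩ | ⟨a2, c2⟩
    · left
      refine ⟨?_, Cl.step hne h1 h2 c1 c2⟩
      by_contra hcon
      push Not at hcon
      apply hne
      rw [nb_eq_of_lt h1 i (by omega), nb_eq_of_lt h2 i (by omega)]
    · exfalso; omega
    · exfalso; omega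
    · right
      refine ⟨?_, Cl.step hne h1 h2 c1 c2⟩
      by_contra hcon
      push Not at hcon
      apply hne
      rw [nb_eq_of_gt h1 i (by omega), nb_eq_of_gt h2 i (by omega)]

/-- cubes -/
def bx (x : V d) (K : ℤ) : Set (V d) := {y | ∀ i, |y i - x i| ≤ K}

/-- locality of the closure of few sites -/
theorem Cl_local (n : ℕ) (m : ℕ) : ∀ X : Finset (V d), X.card ≤ m → m ≤ n → ∀ x : V d,
    Cl (X : Set (V d)) x → Cl ((X : Set (V d)) ∩ bx x (2 * n)) x := by
  classical
  induction m with
  | zero =>
    intro X hX _ x hx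
    have : X = ∅ := Finset.card_eq_zero.1 (by omega)
    rw [this, Finset.coe_empty] at hx
    exact (Cl_empty hx).elim
  | succ m ih =>
    intro X hX hmn x hx
    by_cases hall : ∀ y ∈ X, y ∈ bx x (2 * n)
    · refine Cl_mono ?_ hx
      intro y hy
      exact ⟨hy, hall y hy⟩
    · push Not at hall
      obtain ⟨y, hy, hyb⟩ := hall
      unfold bx at hyb
      rw [Set.mem_ofPred_eq] at hyb
      push Not at hyb
      obtain ⟨i, hi⟩ := hyb
      have hcarderase : (X.erase y).card < n := by
        rw [Finset.card_erase_of_mem hy]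
        have := Finset.card_pos.2 ⟨y, hy⟩
        omega
      rcases lt_or_ge (x i) (y i) with hlt | hge
      · rw [abs_of_pos (by linarith)] at hi
        -- a gap above `x`
        have hgap : ∃ k ∈ Finset.range n, ∀ z ∈ X.erase y,
            z i ≠ x i + 2 * k + 1 ∧ z i ≠ x i + 2 * k + 2 := by
          by_contra hcon
          push Not at hcon
          have hcon2 : ∀ k ∈ Finset.range n, ∃ z ∈ X.erase y,
              z i = x i + 2 * k + 1 ∨ z i = x i + 2 * k + 2 := by
            intro k hk
            obtain ⟨z, hz, hz2⟩ := hcon k hk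
            refine ⟨z, hz, ?_⟩
            by_cases h : z i = x i + 2 * k + 1
            · exact Or.inl h
            · exact Or.inr (hz2 h)
          choose! f hf1 hf2 using hcon2
          have hinj : Set.InjOn f (Finset.range n : Set ℕ) := by
            intro k hk k' hk' hkk
            have h1 := hf2 k (by simpa using hk)
            have h2 := hf2 k' (by simpa using hk')
            rw [hkk] at h1
            omega
          have := Finset.card_le_card_of_injOn f hf1 hinj
          rw [Finset.card_range] at this
          omega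
        obtain ⟨k, hk, hkgap⟩ := hgap
        rw [Finset.mem_range] at hk
        have hk' : (k : ℤ) + 1 ≤ n := by exact_mod_cast hk
        set t : ℤ := x i + 2 * k with ht
        have hXt : ∀ z ∈ (X : Set (V d)), z i ≤ t ∨ t + 3 ≤ z i := by
          intro z hz
          by_cases hzy : z = y
          · right; rw [hzy]; omega
          · have := hkgap z (Finset.mem_erase.2 ⟨hzy, hz⟩)
            omega
        rcases Cl_gap hXt hx with ⟨_, h2⟩ | ⟨h1, _⟩
        · have hsub : ({z | z ∈ (X : Set (V d)) ∧ z i ≤ t} : Set (V d)) =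
              ((X.filter (fun z => z i ≤ t) : Finset (V d)) : Set (V d)) := by
            ext z; simp
          rw [hsub] at h2
          have hcard : (X.filter (fun z => z i ≤ t)).card ≤ m := by
            have : X.filter (fun z => z i ≤ t) ⊆ X.erase y := by
              intro z hz
              rw [Finset.mem_filter] at hz
              rw [Finset.mem_erase]
              refine ⟨?_, hz.1⟩
              rintro rfl
              omega
            have := Finset.card_le_card this
            rw [Finset.card_erase_of_mem hy] at this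
            omega
          refine Cl_mono ?_ (ih _ hcard (by omega) x h2)
          apply Set.inter_subset_inter_left
          intro z hz
          exact (Finset.mem_filter.1 hz).1
        · exfalso; omega
      · rw [abs_of_nonpos (by linarith)] at hi
        have hgap : ∃ k ∈ Finset.range n, ∀ z ∈ X.erase y,
            z i ≠ x i - 2 * k - 1 ∧ z i ≠ x i - 2 * k - 2 := by
          by_contra hcon
          push Not at hcon
          have hcon2 : ∀ k ∈ Finset.range n, ∃ z ∈ X.erase y,
              z i = x i - 2 * k - 1 ∨ z i = x i - 2 * k - 2 := by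
            intro k hk
            obtain ⟨z, hz, hz2⟩ := hcon k hk
            refine ⟨z, hz, ?_⟩
            by_cases h : z i = x i - 2 * k - 1
            · exact Or.inl h
            · exact Or.inr (hz2 h)
          choose! f hf1 hf2 using hcon2
          have hinj : Set.InjOn f (Finset.range n : Set ℕ) := by
            intro k hk k' hk' hkk
            have h1 := hf2 k (by simpa using hk)
            have h2 := hf2 k' (by simpa using hk')
            rw [hkk] at h1
            omega
          have := Finset.card_le_card_of_injOn f hf1 hinj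
          rw [Finset.card_range] at this
          omega
        obtain ⟨k, hk, hkgap⟩ := hgap
        rw [Finset.mem_range] at hk
        have hk' : (k : ℤ) + 1 ≤ n := by exact_mod_cast hk
        set t : ℤ := x i - 2 * k - 3 with ht
        have hXt : ∀ z ∈ (X : Set (V d)), z i ≤ t ∨ t + 3 ≤ z i := by
          intro z hz
          by_cases hzy : z = y
          · left; rw [hzy]; omega
          · have := hkgap z (Finset.mem_erase.2 ⟨hzy, hz⟩)
            omega
        rcases Cl_gap hXt hx with ⟨h1, _⟩ | ⟨_, h2⟩
        · exfalso; omega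
        · have hsub : ({z | z ∈ (X : Set (V d)) ∧ t + 3 ≤ z i} : Set (V d)) =
              ((X.filter (fun z => t + 3 ≤ z i) : Finset (V d)) : Set (V d)) := by
            ext z; simp
          rw [hsub] at h2
          have hcard : (X.filter (fun z => t + 3 ≤ z i)).card ≤ m := by
            have : X.filter (fun z => t + 3 ≤ z i) ⊆ X.erase y := by
              intro z hz
              rw [Finset.mem_filter] at hz
              rw [Finset.mem_erase]
              refine ⟨?_, hz.1⟩
              rintro rfl
              omega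
            have := Finset.card_le_card this
            rw [Finset.card_erase_of_mem hy] at this
            omega
          refine Cl_mono ?_ (ih _ hcard (by omega) x h2)
          apply Set.inter_subset_inter_left
          intro z hz
          exact (Finset.mem_filter.1 hz).1

/-- the local closure -/
def Ap (A : Set (V d)) (K : ℤ) : Set (V d) := {x | Cl (A ∩ bx x K) x}

theorem bx_finite (x : V d) (K : ℤ) : (bx x K).Finite := by
  apply Set.Finite.subset (Set.finite_Icc (fun i => x i - K) (fun i => x i + K))
  intro y hy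
  constructor
  · intro i
    have := abs_le.1 (hy i)
    show x i - K ≤ y i
    linarith
  · intro i
    have := abs_le.1 (hy i)
    show y i ≤ x i + K
    linarith

theorem bx_nb {x y : V d} {K : ℤ} (h : nm (y - x) = 1) : bx y K ⊆ bx x (K + 1) := by
  intro z hz i
  have h1 := hz i
  have h2 := nb_coord h i
  have h3 : z i - x i = (z i - y i) + (y i - x i) := by ring
  rw [h3]
  exact le_trans (abs_add_le _ _) (by linarith)

theorem Ap_sub (A : Set (V d)) {K : ℤ} (hK : 0 ≤ K) : A ⊆ Ap A K := by
  intro x hx
  refine Cl.base ⟨hx, ?_⟩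
  intro i
  rw [sub_self, abs_zero]
  exact hK

theorem Ap_near {A : Set (V d)} {K : ℤ} {y : V d} (h : y ∈ Ap A K) : ∃ u ∈ A, u ∈ bx y K := by
  by_contra hcon
  push Not at hcon
  have : A ∩ bx y K = ∅ := by
    apply Set.eq_empty_of_forall_notMem
    rintro u ⟨h1, h2⟩
    exact hcon u h1 h2
  unfold Ap at h
  rw [Set.mem_ofPred_eq, this] at h
  exact Cl_empty h

theorem Ap_one {A : Set (V d)} {n : ℕ} {K : ℤ} (hK : (2 * n : ℤ) ≤ K) {x : V d} (hx : x ∉ Ap A K)
    (hn : (A ∩ bx x (K + 1)).ncard ≤ n) : ({y | y ∈ Ap A K ∧ nm (y - x) = 1}).ncard ≤ 1 := by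
  classical
  by_contra hcon
  push Not at hcon
  have hfin : ({y | y ∈ Ap A K ∧ nm (y - x) = 1}).Finite := by
    apply (bx_finite x 1).subset
    rintro y ⟨_, hy⟩ i
    exact nb_coord hy i
  obtain ⟨y1, ⟨h1, g1⟩, y2, ⟨h2, g2⟩, hne⟩ := (Set.one_lt_ncard hfin).1 hcon
  apply hx
  have hfin2 : (A ∩ bx x (K + 1)).Finite := (bx_finite x (K + 1)).subset Set.inter_subset_right
  have h3 : Cl (A ∩ bx x (K + 1)) x := by
    refine Cl.step hne g1 g2 ?_ ?_
    · exact Cl_mono (Set.inter_subset_inter_right _ (bx_nb g1)) h1
    · exact Cl_mono (Set.inter_subset_inter_right _ (bx_nb g2)) h2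
  have h4 := Cl_local (d := d) n n hfin2.toFinset (by
    rw [← Set.ncard_eq_toFinset_card _ hfin2]; exact hn) le_rfl x (by
    rw [Set.Finite.coe_toFinset]; exact h3)
  rw [Set.Finite.coe_toFinset] at h4
  refine Cl_mono ?_ h4
  rintro u ⟨⟨h5, _⟩, h6⟩
  exact ⟨h5, fun i => le_trans (h6 i) hK⟩

end Pool.Agent.H500R3.Pol
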